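import Mathlib
import Pool.Agent.Y969.TM4

/-!
Moments of the model polynomials, uniformly in the coefficients.
-/

set_option autoImplicit false

open Finset Filter Topology
open Pool.Agent.H383.AP Pool.Agent.H383.Gauss
open Pool.Agent.H383.Gen
open Pool.Agent.Y969.TM

namespace Pool.Agent.D0H48.Gr

variable {α κ : ℝ} {S0 : Finset ℕ}

open Classical in
/-- moment generating function, uniformly in the coefficients -/
theorem mgf_unif (hS : GoodS α S0) (hκ : 1/2 < κ) {p : ℝ} (hp1 : 1 ≤ p) (hp2 : p ≤ 2) (hp : 1 < κ * p) :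
    ∃ L : ℝ, 0 ≤ L ∧ ∀ (a : ℕ → ℝ) (φ X C : ℝ), 0 < C → (∀ m : ℕ, 1 ≤ m → |a m| ≤ C * (m:ℝ) ^ (-κ)) →
      ∀ (l : ℝ) (M : ℕ),
        ‖mn (ex a φ α X (l:ℂ) (Finset.Icc 1 (M^2)))‖ ≤ Real.exp (L * (C * |l|) + L * (C * |l|) ^ p) := by
  set S2 : ℝ := ∑' t : ℕ, (t:ℝ) ^ (-(2 * κ)) with hS2
  have hS20 : 0 ≤ S2 := tsum_nonneg (fun t => by positivity)
  have hsum : Summable (fun s : ℕ => (s:ℝ) ^ (-(κ * p))) := by
    rw [Real.summable_nat_rpow]; linarith
  set B1 : ℝ := ∑ s ∈ S0, S2 * (s:ℝ) ^ (-κ) with hB1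
  set D1 : ℝ := S2 ^ p * ∑' s : ℕ, (s:ℝ) ^ (-(κ * p)) with hD1
  have hB10 : 0 ≤ B1 := Finset.sum_nonneg (fun s _ => by positivity)
  have hD10 : 0 ≤ D1 := mul_nonneg (by positivity) (tsum_nonneg (fun s => by positivity))
  refine ⟨B1 + D1, by positivity, ?_⟩
  intro a φ X C hC ha l M
  set Z := C * S2 with hZ
  have hZ0 : 0 ≤ Z := mul_nonneg hC.le hS20
  have main : ‖mn (ex a φ α X (l:ℂ) (Finset.Icc 1 (M^2)))‖ ≤
      Real.exp ((∑ s ∈ S0, Z * (s:ℝ) ^ (-κ)) * |l| + (Z ^ p * ∑' s : ℕ, (s:ℝ) ^ (-(κ * p))) * |l| ^ p) := by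
    set Q := (Finset.Icc 1 (M^2)).filter (fun s => Squarefree s ∧ s ∉ S0) with hQ
    have hQ' : ∀ s ∈ Q, Squarefree s ∧ s ∉ S0 := fun s hs => (Finset.mem_filter.mp hs).2
    rw [prod_formula (a := a) (φ := φ) (X := X) hS (l:ℂ) (T := Finset.Icc 1 (M^2))
      (fun m hm => (Finset.mem_Icc.mp hm).1) Q hQ', norm_mul, norm_prod]
    set Tr := (Finset.Icc 1 (M^2)).filter (fun m => ∀ s ∈ Q, ¬ InC s m) with hTr
    have h1 : ‖mn (ex a φ α X (l:ℂ) Tr)‖ ≤ Real.exp ((∑ s ∈ S0, Z * (s:ℝ) ^ (-κ)) * |l|) := by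
      apply mn_norm_le (ex_UC_top _) (Real.exp_pos _).le
      intro n
      unfold ex
      rw [Complex.norm_exp]
      apply Real.exp_le_exp.mpr
      have e : ((l:ℂ) * ((ST a φ α X Tr n : ℝ) : ℂ)).re = l * ST a φ α X Tr n := by
        rw [← Complex.ofReal_mul, Complex.ofReal_re]
      rw [e]
      have hbTr : bT a Tr ≤ ∑ s ∈ S0, Z * (s:ℝ) ^ (-κ) := by
        have hsub : ∀ m ∈ Tr, ∃ s ∈ S0.filter Squarefree, InC s m := by
          intro m hm
          rw [hTr, Finset.mem_filter, Finset.mem_Icc] at hm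
          obtain ⟨s, t, hst, hsf⟩ := Nat.sq_mul_squarefree m
          have hc : InC s m := ⟨t, by rw [← hst]; ring⟩
          refine ⟨s, ?_, hc⟩
          rw [Finset.mem_filter]
          refine ⟨?_, hsf⟩
          by_contra hs0
          apply hm.2 s _ hc
          rw [hQ, Finset.mem_filter, Finset.mem_Icc]
          refine ⟨⟨Nat.one_le_iff_ne_zero.mpr hsf.ne_zero, ?_⟩, hsf, hs0⟩
          have ht : 1 ≤ t := by
            rcases Nat.eq_zero_or_pos t with h | h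
            · rw [h] at hst; simp at hst; omega
            · exact h
          calc s = 1^2 * s := by ring
            _ ≤ t^2 * s := Nat.mul_le_mul_right _ (Nat.pow_le_pow_left ht 2)
            _ = m := hst
            _ ≤ M^2 := hm.1.2
        have h3 : bT a Tr ≤ ∑ s ∈ S0.filter Squarefree, bT a (Tr.filter (InC s)) := by
          unfold bT
          have h4 : ∀ m ∈ Tr, |a m| ≤ ∑ s ∈ S0.filter Squarefree, if InC s m then |a m| else 0 := by
            intro m hm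
            obtain ⟨s, hs, hc⟩ := hsub m hm
            have h5 := Finset.single_le_sum (s := S0.filter Squarefree) (f := fun s => if InC s m then |a m| else 0) (fun i _ => by
              split_ifs
              · exact abs_nonneg _
              · exact le_rfl) hs
            simp only [if_pos hc] at h5
            exact h5
          refine (Finset.sum_le_sum h4).trans ?_
          rw [Finset.sum_comm]
          apply Finset.sum_le_sum
          intro s _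
          rw [← Finset.sum_filter]
        refine h3.trans ?_
        refine le_trans ?_ (Finset.sum_le_sum_of_subset_of_nonneg (Finset.filter_subset Squarefree S0) (fun s _ _ => by positivity))
        apply Finset.sum_le_sum
        intro s hs
        rw [Finset.mem_filter] at hs
        apply bT_le hκ hC ha (Nat.one_le_iff_ne_zero.mpr hs.2.ne_zero)
        intro m hm
        rw [Finset.mem_filter, hTr, Finset.mem_filter, Finset.mem_Icc] at hm
        exact ⟨hm.1.1.1, hm.2⟩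
      calc l * ST a φ α X Tr n ≤ |l * ST a φ α X Tr n| := le_abs_self _
        _ = |l| * |ST a φ α X Tr n| := abs_mul _ _
        _ ≤ |l| * bT a Tr := mul_le_mul_of_nonneg_left (abs_ST_le n) (abs_nonneg _)
        _ ≤ |l| * ∑ s ∈ S0, Z * (s:ℝ) ^ (-κ) := mul_le_mul_of_nonneg_left hbTr (abs_nonneg _)
        _ = _ := mul_comm _ _
    have h2 : ∀ s ∈ Q, ‖mn (ex a φ α X (l:ℂ) ((Finset.Icc 1 (M^2)).filter (InC s)))‖ ≤
        Real.exp ((Z ^ p * |l| ^ p) * (s:ℝ) ^ (-(κ * p))) := by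
      intro s hs
      obtain ⟨hsf, hs0⟩ := hQ' s hs
      have hs1 : (0:ℝ) < s := by exact_mod_cast (Nat.pos_of_ne_zero hsf.ne_zero)
      have hT : ∀ m ∈ (Finset.Icc 1 (M^2)).filter (InC s), 1 ≤ m ∧ InC s m := by
        intro m hm
        rw [Finset.mem_filter, Finset.mem_Icc] at hm
        exact ⟨hm.1.1, hm.2⟩
      refine (blk_mgf hS hsf hs0 hT l).trans ?_
      apply Real.exp_le_exp.mpr
      have hb := bT_le hκ hC ha (Nat.one_le_iff_ne_zero.mpr hsf.ne_zero) hT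
      set b := bT a ((Finset.Icc 1 (M^2)).filter (InC s)) with hbd
      have hb0 : 0 ≤ |l| * b := mul_nonneg (abs_nonneg _) bT_nonneg
      have hmin : min (|l| * b) ((|l| * b)^2) ≤ (|l| * b) ^ p := by
        rcases le_or_gt (|l| * b) 1 with h | h
        · refine (min_le_right _ _).trans ?_
          rcases hb0.eq_or_lt with h0 | h0
          · rw [← h0]; simp [Real.zero_rpow (by linarith : p ≠ 0)]
          · rw [← Real.rpow_natCast]
            exact Real.rpow_le_rpow_of_exponent_ge h0 h (by exact_mod_cast hp2)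
        · refine (min_le_left _ _).trans ?_
          calc |l| * b = (|l| * b) ^ (1:ℝ) := (Real.rpow_one _).symm
            _ ≤ _ := Real.rpow_le_rpow_of_exponent_le h.le hp1
      refine hmin.trans ?_
      calc (|l| * b) ^ p ≤ (|l| * (Z * (s:ℝ) ^ (-κ))) ^ p := by
            apply Real.rpow_le_rpow hb0 _ (by linarith)
            exact mul_le_mul_of_nonneg_left hb (abs_nonneg _)
        _ = (Z ^ p * |l| ^ p) * (s:ℝ) ^ (-(κ * p)) := by
            rw [Real.mul_rpow (abs_nonneg _) (by positivity), Real.mul_rpow hZ0 (by positivity), ← Real.rpow_mul hs1.le]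
            rw [show -κ * p = -(κ * p) by ring]; ring
    calc (∏ s ∈ Q, ‖mn (ex a φ α X (l:ℂ) ((Finset.Icc 1 (M^2)).filter (InC s)))‖) * ‖mn (ex a φ α X (l:ℂ) Tr)‖
        ≤ (∏ s ∈ Q, Real.exp ((Z ^ p * |l| ^ p) * (s:ℝ) ^ (-(κ * p)))) *
          Real.exp ((∑ s ∈ S0, Z * (s:ℝ) ^ (-κ)) * |l|) := by
          gcongr with s hs
          exact h2 s hs
      _ = Real.exp ((∑ s ∈ S0, Z * (s:ℝ) ^ (-κ)) * |l| + (Z ^ p * |l| ^ p) * ∑ s ∈ Q, (s:ℝ) ^ (-(κ * p))) := by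
          rw [← Real.exp_sum, ← Real.exp_add, Finset.mul_sum, add_comm]
      _ ≤ _ := by
          apply Real.exp_le_exp.mpr
          have h5 : ∑ s ∈ Q, (s:ℝ) ^ (-(κ * p)) ≤ ∑' s : ℕ, (s:ℝ) ^ (-(κ * p)) :=
            hsum.sum_le_tsum _ (fun s _ => by positivity)
          have h6 : 0 ≤ Z ^ p * |l| ^ p := by positivity
          have h7 := mul_le_mul_of_nonneg_left h5 h6
          linarith
  refine main.trans (Real.exp_le_exp.mpr ?_)
  have e1 : ∑ s ∈ S0, Z * (s:ℝ) ^ (-κ) = C * B1 := by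
    rw [hB1, hZ, Finset.mul_sum]
    exact Finset.sum_congr rfl fun s _ => by ring
  have e2 : Z ^ p = C ^ p * S2 ^ p := by rw [hZ, Real.mul_rpow hC.le hS20]
  have e3 : (C * |l|) ^ p = C ^ p * |l| ^ p := Real.mul_rpow hC.le (abs_nonneg _)
  rw [e1, e2, e3]
  have h1 : 0 ≤ C * |l| := by positivity
  have h2 : 0 ≤ C ^ p * |l| ^ p := by positivity
  have h3 : (C ^ p * S2 ^ p * ∑' s : ℕ, (s:ℝ) ^ (-(κ * p))) * |l| ^ p = D1 * (C ^ p * |l| ^ p) := by
    rw [hD1]; ring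
  rw [h3]
  nlinarith [mul_nonneg hD10 h1, mul_nonneg hB10 h2]

/-- the zero-frequency part of an even power, from the moment generating function -/
theorem ZZ_exp {a : ℕ → ℝ} {φ t : ℝ} (ht : Transcendental ℤ t) {lam Bd : ℝ} (hlam : 0 < lam) (k M : ℕ)
    (h1' : ‖mn (ex a φ t 0 ((lam:ℝ):ℂ) (Icc 1 (M^2)))‖ ≤ Bd) (h2' : ‖mn (ex a φ t 0 ((-lam:ℝ):ℂ) (Icc 1 (M^2)))‖ ≤ Bd) :
    ‖ZZ a φ (2 * k) M‖ ≤ ((2 * k).factorial : ℝ) * (lam⁻¹) ^ (2 * k) * (2 * Bd) := by
  classical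
  have h1 := pow_mean ht a φ (2 * k) M
  have e0 : ∀ l : ℝ, ex a φ t 0 (l:ℂ) (Icc 1 (M^2)) = fun n : ℕ => ((Real.exp (l * U a φ (n * t) M) : ℝ) : ℂ) := by
    intro l
    funext n
    unfold ex
    rw [ST_U, zero_add]
    push_cast
    rfl
  have h2 := fun l : ℝ => UC_hasMean (ex_UC_top (a := a) (φ := φ) (α := t) (X := 0) (T := Icc 1 (M^2)) (l:ℂ))
  have h3 := (h2 lam).add (h2 (-lam))
  have hfac : (0:ℝ) < ((2 * k).factorial : ℝ) := by positivity
  have hcm : cm (fun n : ℕ => ((U a φ (n * t) M : ℝ) : ℂ) ^ (2 * k)) =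
      fun N => ((rm (fun n : ℕ => (U a φ (n * t) M) ^ (2 * k)) N : ℝ) : ℂ) := by
    funext N
    rw [← cm_ofReal]
    push_cast
    rfl
  have hA : Tendsto (rm (fun n : ℕ => (U a φ (n * t) M) ^ (2 * k))) atTop (𝓝 (ZZ a φ (2 * k) M).re) := by
    unfold HasMean at h1
    rw [hcm] at h1
    exact (Complex.continuous_re.tendsto _).comp h1
  have hIm : (ZZ a φ (2 * k) M).im = 0 := by
    unfold HasMean at h1
    rw [hcm] at h1
    have h4 := (Complex.continuous_im.tendsto _).comp h1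
    have h5 : Tendsto (fun _ : ℕ => (0:ℝ)) atTop (𝓝 (ZZ a φ (2 * k) M).im) := h4
    exact tendsto_nhds_unique h5 tendsto_const_nhds |>.symm ▸ rfl
  have hB : Tendsto (rm (fun n : ℕ => Real.exp (lam * U a φ (n * t) M) + Real.exp (-(lam * U a φ (n * t) M)))) atTop
      (𝓝 (mn (ex a φ t 0 ((lam:ℝ):ℂ) (Icc 1 (M^2))) + mn (ex a φ t 0 ((-lam:ℝ):ℂ) (Icc 1 (M^2)))).re) := by
    unfold HasMean at h3
    have : cm (ex a φ t 0 ((lam:ℝ):ℂ) (Icc 1 (M^2)) + ex a φ t 0 ((-lam:ℝ):ℂ) (Icc 1 (M^2))) =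
        fun N => ((rm (fun n : ℕ => Real.exp (lam * U a φ (n * t) M) + Real.exp (-(lam * U a φ (n * t) M))) N : ℝ) : ℂ) := by
      funext N
      rw [← cm_ofReal, e0, e0]
      simp only [neg_mul]
      push_cast
      rfl
    rw [this] at h3
    exact (Complex.continuous_re.tendsto _).comp h3
  have hle : (ZZ a φ (2 * k) M).re ≤ (((2 * k).factorial : ℝ) * (lam⁻¹) ^ (2 * k)) *
      (mn (ex a φ t 0 ((lam:ℝ):ℂ) (Icc 1 (M^2))) + mn (ex a φ t 0 ((-lam:ℝ):ℂ) (Icc 1 (M^2)))).re := by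
    refine le_of_tendsto_of_tendsto hA (hB.const_mul _) (Eventually.of_forall fun N => ?_)
    beta_reduce
    rw [← rm_mul]
    refine rm_mono (fun n => ?_) N
    have h5 := pow_le_exp (lam * U a φ (n * t) M) k
    have h6 : (U a φ (n * t) M) ^ (2 * k) = (lam⁻¹) ^ (2 * k) * (lam * U a φ (n * t) M) ^ (2 * k) := by
      rw [← mul_pow]
      congr 1
      field_simp
    rw [h6]
    have h7 : (0:ℝ) ≤ (lam⁻¹) ^ (2 * k) := by positivity
    calc (lam⁻¹) ^ (2 * k) * (lam * U a φ (n * t) M) ^ (2 * k) ≤ (lam⁻¹) ^ (2 * k) * _ := mul_le_mul_of_nonneg_left h5 h7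
      _ = _ := by ring
  have h0 : 0 ≤ (ZZ a φ (2 * k) M).re := by
    refine ge_of_tendsto hA (Eventually.of_forall fun N => rm_nonneg (fun n => ?_) N)
    exact Even.pow_nonneg (even_two_mul k) _
  have hnorm : ‖ZZ a φ (2 * k) M‖ = (ZZ a φ (2 * k) M).re := by
    have : ZZ a φ (2 * k) M = (((ZZ a φ (2 * k) M).re : ℝ) : ℂ) := by
      apply Complex.ext
      · simp
      · simp [hIm]
    rw [this, Complex.norm_real, Real.norm_eq_abs, abs_of_nonneg h0, Complex.ofReal_re]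
  rw [hnorm]
  refine hle.trans ?_
  apply mul_le_mul_of_nonneg_left _ (by positivity)
  refine (Complex.re_le_norm _).trans ((norm_add_le _ _).trans ?_)
  linarith

/-- moments of the model polynomials, uniformly in the coefficients -/
theorem ZZ_mom (hκ : 1/2 < κ) {p : ℝ} (hp1 : 1 ≤ p) (hp2 : p ≤ 2) (hp : 1 < κ * p) :
    ∃ L : ℝ, 1 ≤ L ∧ ∀ (a : ℕ → ℝ) (φ C : ℝ), 0 < C → (∀ m : ℕ, 1 ≤ m → |a m| ≤ C * (m:ℝ) ^ (-κ)) →
      ∀ r M : ℕ, 1 ≤ r → ‖ZZ a φ (2 * r) M‖ ≤ 2 * (L * C * ((2 * r : ℕ):ℝ) ^ (1 - 1/p)) ^ (2 * r) := by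
  obtain ⟨t, ht0, ht⟩ := exists_tr
  obtain ⟨S0, hS⟩ := exists_S ht0
  obtain ⟨L, hL, hm⟩ := mgf_unif hS hκ hp1 hp2 hp
  refine ⟨Real.exp (2 * L), Real.one_le_exp (by positivity), ?_⟩
  intro a φ C hC ha r M hr
  have hr0 : (1:ℝ) ≤ ((2 * r : ℕ):ℝ) := by
    have : 1 ≤ 2 * r := by omega
    exact_mod_cast this
  set R : ℝ := ((2 * r : ℕ):ℝ) with hR
  have hR0 : 0 < R := by linarith
  set lam : ℝ := R ^ (1/p) / C with hlam
  have hlam0 : 0 < lam := by positivity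
  have hb : ∀ l : ℝ, |l| = lam → ‖mn (ex a φ t 0 ((l:ℝ):ℂ) (Icc 1 (M^2)))‖ ≤ Real.exp (2 * L * R) := by
    intro l hl
    refine (hm a φ 0 C hC ha l M).trans (Real.exp_le_exp.mpr ?_)
    have e1 : C * |l| = R ^ (1/p) := by rw [hl, hlam]; field_simp
    rw [e1]
    have e2 : (R ^ (1/p)) ^ p = R := by
      rw [← Real.rpow_mul hR0.le, one_div, inv_mul_cancel₀ (by linarith), Real.rpow_one]
    have e3 : R ^ (1/p) ≤ R := by
      calc R ^ (1/p) ≤ R ^ (1:ℝ) := Real.rpow_le_rpow_of_exponent_le hr0 (by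
            rw [div_le_one (by linarith)]; exact hp1)
        _ = R := Real.rpow_one _
    rw [e2]
    nlinarith
  have h1 := ZZ_exp ht hlam0 r M (hb lam (abs_of_pos hlam0)) (hb (-lam) (by rw [abs_neg, abs_of_pos hlam0]))
  refine h1.trans ?_
  have h2 : ((2 * r).factorial : ℝ) ≤ R ^ (2 * r) := by
    rw [hR]
    exact_mod_cast Nat.factorial_le_pow (2 * r)
  have h3 : Real.exp (2 * L * R) = Real.exp (2 * L) ^ (2 * r) := by
    rw [← Real.exp_nat_mul, hR]; congr 1; ring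
  have h4 : lam⁻¹ * R = C * R ^ (1 - 1/p) := by
    rw [hlam, Real.rpow_sub hR0, Real.rpow_one]
    field_simp
  calc ((2 * r).factorial : ℝ) * lam⁻¹ ^ (2 * r) * (2 * Real.exp (2 * L * R))
      ≤ R ^ (2 * r) * lam⁻¹ ^ (2 * r) * (2 * Real.exp (2 * L * R)) := by gcongr
    _ = 2 * (Real.exp (2 * L) * (lam⁻¹ * R)) ^ (2 * r) := by rw [h3, mul_pow, mul_pow]; ring
    _ = _ := by rw [h4, mul_assoc]

end Pool.Agent.D0H48.Gr
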