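import Mathlib
import Pool.Agent.R306.GP.AEc
import Pool.Agent.D0H48.Gr.Mgf

/-!
Large values of the model polynomials along `b_n exp(a_n y)`: upper bounds for almost every `y`.
-/

set_option autoImplicit false

open MeasureTheory Filter Topology Set Real
open scoped ENNReal
open Pool.Agent.H383.Gen (U Bd)
open Pool.Agent.Y969.TM
open Pool.Agent.R306.GP

namespace Pool.Agent.D0H48.Gr

variable {E : ℝ → ℝ} {af : ℕ → ℝ} {φ : ℝ} {a b : ℕ → ℝ} {δ c d : ℝ}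

/-- powers of two against an exponential of an exponential -/
lemma dexp {s : ℝ} (hs : 0 < s) (K : ℝ) : ∃ j0 : ℕ, ∀ j : ℕ, j0 ≤ j →
    K * (((j:ℝ) + 1) ^ 2 * (3 / 2) ^ j) ≤ s * 2 ^ j := by
  have h1 : Tendsto (fun j : ℕ => (((j:ℝ)) ^ 2 * (3 / 4 : ℝ) ^ j)) atTop (𝓝 0) :=
    tendsto_pow_const_mul_const_pow_of_abs_lt_one 2 (by rw [abs_of_pos (by norm_num)]; norm_num)
  have h2 := (h1.const_mul (4 * |K|))
  rw [mul_zero] at h2
  obtain ⟨j0, hj0⟩ := eventually_atTop.mp (h2.eventually (gt_mem_nhds hs))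
  refine ⟨max j0 1, fun j hj => ?_⟩
  have h3 := hj0 j (by omega)
  have hj1 : (1:ℝ) ≤ j := by exact_mod_cast (by omega : 1 ≤ j)
  have h4 : ((j:ℝ) + 1) ^ 2 ≤ 4 * (j:ℝ) ^ 2 := by nlinarith
  have h5 : (3 / 2 : ℝ) ^ j = (3 / 4) ^ j * 2 ^ j := by rw [← mul_pow]; norm_num
  have h6 : (0:ℝ) < 2 ^ j := by positivity
  calc K * (((j:ℝ) + 1) ^ 2 * (3 / 2) ^ j) ≤ |K| * (((j:ℝ) + 1) ^ 2 * (3 / 2) ^ j) :=
        mul_le_mul_of_nonneg_right (le_abs_self K) (by positivity)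
    _ ≤ |K| * ((4 * (j:ℝ) ^ 2) * (3 / 2) ^ j) := by gcongr
    _ = (4 * |K| * ((j:ℝ) ^ 2 * (3 / 4) ^ j)) * 2 ^ j := by rw [h5]; ring
    _ ≤ _ := mul_le_mul_of_nonneg_right h3.le h6.le

/-- the error term of the means, for high powers -/
lemma err_small (h : Sq a b δ) (hc : 0 < c) (hcd : c ≤ d) {Cs : ℝ} (hCs : 1 ≤ Cs) (q : ℕ) : ∃ j0 : ℕ, ∀ j : ℕ, j0 ≤ j →
    ∀ n : ℕ, 2 ^ j ≤ n → ∀ M : ℕ, 1 ≤ M → M ≤ 2 ^ (q * (j + 1)) → ∀ r : ℕ, r ≤ j / 4 → ∀ s : ℕ, s ≤ 2 * r →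
      (Cs * (M:ℝ) ^ 2) ^ (2 * r) * (2 * Cp c d δ * (((s * M + 1 : ℕ) : ℝ) ^ (2 ^ s) / pt a b n c)) ≤ (1 / 4) ^ j := by
  have hCp := Cp_pos hc hcd h.dpos
  have hsc : 0 < δ * c := mul_pos h.dpos hc
  have hb0 := h.pos 0
  obtain ⟨j0, hj0⟩ := dexp hsc (Real.log Cs + 2 * q + |Real.log (2 * Cp c d δ / b 0)| + (q + 1) + 2)
  refine ⟨j0, fun j hj n hn M hM1 hM r hr s hs => ?_⟩
  have hk := hj0 j hj
  have hj' : (0:ℝ) ≤ j := Nat.cast_nonneg j
  have hq' : (0:ℝ) ≤ q := Nat.cast_nonneg q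
  have h2e : (2:ℝ) ≤ Real.exp 1 := by have := Real.exp_one_gt_d9; linarith
  have h2pow : ∀ k : ℕ, (2:ℝ) ^ k ≤ Real.exp k := by
    intro k
    calc (2:ℝ) ^ k ≤ (Real.exp 1) ^ k := pow_le_pow_left₀ (by norm_num) h2e k
      _ = Real.exp k := by rw [← Real.exp_nat_mul, mul_one]
  have hM1r : (1:ℝ) ≤ M := by exact_mod_cast hM1
  have hMr : (M:ℝ) ≤ 2 ^ (q * (j + 1)) := by exact_mod_cast hM
  have h1 : (Cs * (M:ℝ) ^ 2) ^ (2 * r) ≤ Real.exp (j * (Real.log Cs + 2 * q * (j + 1))) := by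
    have h3 : (1:ℝ) ≤ Cs * (M:ℝ) ^ 2 := by
      have : (1:ℝ) ≤ (M:ℝ) ^ 2 := one_le_pow₀ hM1r
      nlinarith
    calc (Cs * (M:ℝ) ^ 2) ^ (2 * r) ≤ (Cs * (M:ℝ) ^ 2) ^ j := pow_le_pow_right₀ h3 (by omega)
      _ ≤ (Real.exp (Real.log Cs + 2 * q * (j + 1))) ^ j := by
          apply pow_le_pow_left₀ (by linarith)
          rw [Real.exp_add, Real.exp_log (by linarith)]
          apply mul_le_mul_of_nonneg_left _ (by linarith)
          calc (M:ℝ) ^ 2 ≤ (2 ^ (q * (j + 1))) ^ 2 := pow_le_pow_left₀ (by linarith) hMr 2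
            _ = 2 ^ (2 * q * (j + 1)) := by rw [← pow_mul]; congr 1; ring
            _ ≤ Real.exp ((2 * q * (j + 1) : ℕ) : ℝ) := h2pow _
            _ = _ := by push_cast; rfl
      _ = _ := by rw [← Real.exp_nat_mul]
  have h2 : ((s * M + 1 : ℕ) : ℝ) ^ (2 ^ s) ≤ Real.exp ((q + 1) * (j + 1) * (3 / 2) ^ j) := by
    have h3 : s * M + 1 ≤ 2 ^ ((q + 1) * (j + 1)) := by
      have hs' : s ≤ j := by omega
      calc s * M + 1 ≤ j * M + M := Nat.add_le_add (Nat.mul_le_mul_right _ hs') hM1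
        _ = (j + 1) * M := by ring
        _ ≤ 2 ^ (j + 1) * 2 ^ (q * (j + 1)) := Nat.mul_le_mul (Nat.lt_two_pow_self).le hM
        _ = 2 ^ ((q + 1) * (j + 1)) := by rw [← pow_add]; congr 1; ring
    have h4 : ((s * M + 1 : ℕ) : ℝ) ≤ 2 ^ ((q + 1) * (j + 1)) := by exact_mod_cast h3
    have h5 : ((2 ^ s : ℕ) : ℝ) ≤ (3 / 2) ^ j := by
      have h6 : (((2 ^ s : ℕ) : ℝ)) ^ 2 ≤ ((3 / 2 : ℝ) ^ j) ^ 2 := by
        push_cast
        rw [← pow_mul, ← pow_mul, mul_comm j 2, pow_mul (3/2 : ℝ) 2 j]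
        calc (2:ℝ) ^ (s * 2) ≤ 2 ^ j := pow_le_pow_right₀ (by norm_num) (by omega)
          _ ≤ _ := pow_le_pow_left₀ (by norm_num) (by norm_num) j
      exact (pow_le_pow_iff_left₀ (by positivity) (by positivity) (by norm_num)).mp h6
    calc ((s * M + 1 : ℕ) : ℝ) ^ (2 ^ s) ≤ (2 ^ ((q + 1) * (j + 1))) ^ (2 ^ s) :=
          pow_le_pow_left₀ (Nat.cast_nonneg _) h4 _
      _ = 2 ^ ((q + 1) * (j + 1) * 2 ^ s) := by rw [← pow_mul]
      _ ≤ Real.exp (((q + 1) * (j + 1) * 2 ^ s : ℕ) : ℝ) := h2pow _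
      _ ≤ _ := by
          apply Real.exp_le_exp.mpr
          push_cast
          push_cast at h5
          apply mul_le_mul_of_nonneg_left h5 (by positivity)
  have h3 : b 0 * Real.exp (δ * c * 2 ^ j) ≤ pt a b n c := by
    refine le_trans ?_ (pt_low h hc.le n)
    apply mul_le_mul_of_nonneg_left _ hb0.le
    apply Real.exp_le_exp.mpr
    apply mul_le_mul_of_nonneg_left _ hsc.le
    exact_mod_cast hn
  have hden : 0 < b 0 * Real.exp (δ * c * 2 ^ j) := by positivity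
  have hpt0 := pt_pos h n c
  have h4 : 2 * Cp c d δ / b 0 ≤ Real.exp |Real.log (2 * Cp c d δ / b 0)| := by
    calc 2 * Cp c d δ / b 0 = Real.exp (Real.log (2 * Cp c d δ / b 0)) := (Real.exp_log (by positivity)).symm
      _ ≤ _ := Real.exp_le_exp.mpr (le_abs_self _)
  calc (Cs * (M:ℝ) ^ 2) ^ (2 * r) * (2 * Cp c d δ * (((s * M + 1 : ℕ) : ℝ) ^ (2 ^ s) / pt a b n c))
      ≤ Real.exp (j * (Real.log Cs + 2 * q * (j + 1))) * (2 * Cp c d δ * (Real.exp ((q + 1) * (j + 1) * (3 / 2) ^ j) /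
        (b 0 * Real.exp (δ * c * 2 ^ j)))) := by
        gcongr
    _ = Real.exp (j * (Real.log Cs + 2 * q * (j + 1))) * Real.exp ((q + 1) * (j + 1) * (3 / 2) ^ j) *
        (Real.exp (δ * c * 2 ^ j))⁻¹ * (2 * Cp c d δ / b 0) := by
        field_simp
    _ ≤ Real.exp (j * (Real.log Cs + 2 * q * (j + 1))) * Real.exp ((q + 1) * (j + 1) * (3 / 2) ^ j) *
        (Real.exp (δ * c * 2 ^ j))⁻¹ * Real.exp |Real.log (2 * Cp c d δ / b 0)| := by gcongr
    _ = Real.exp (j * (Real.log Cs + 2 * q * (j + 1)) + (q + 1) * (j + 1) * (3 / 2) ^ j + |Real.log (2 * Cp c d δ / b 0)| -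
        δ * c * 2 ^ j) := by
        rw [← Real.exp_neg, ← Real.exp_add, ← Real.exp_add, ← Real.exp_add]; congr 1; ring
    _ ≤ Real.exp (-(2 * j)) := by
        apply Real.exp_le_exp.mpr
        have hlog : 0 ≤ Real.log Cs := Real.log_nonneg hCs
        have habs : 0 ≤ |Real.log (2 * Cp c d δ / b 0)| := abs_nonneg _
        have g1 : (1:ℝ) ≤ (3 / 2) ^ j := one_le_pow₀ (by norm_num)
        have g2 : (1:ℝ) ≤ ((j:ℝ) + 1) ^ 2 := one_le_pow₀ (by linarith)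
        set W : ℝ := ((j:ℝ) + 1) ^ 2 * (3 / 2) ^ j with hW
        have w1 : ((j:ℝ) + 1) ^ 2 ≤ W := by rw [hW]; nlinarith
        have w0 : (1:ℝ) ≤ W := g2.trans w1
        have w2 : ((j:ℝ) + 1) * (3 / 2) ^ j ≤ W := by
          rw [hW]
          have : (j:ℝ) + 1 ≤ ((j:ℝ) + 1) ^ 2 := by nlinarith
          exact mul_le_mul_of_nonneg_right this (by positivity)
        have u1 : (j:ℝ) ≤ W := by
          have : (j:ℝ) ≤ ((j:ℝ) + 1) ^ 2 := by nlinarith
          linarith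
        have u2 : (j:ℝ) * (j + 1) ≤ W := by
          have : (j:ℝ) * (j + 1) ≤ ((j:ℝ) + 1) ^ 2 := by nlinarith
          linarith
        have t1 : (j:ℝ) * (Real.log Cs + 2 * q * (j + 1)) ≤ (Real.log Cs + 2 * q) * W := by
          have v1 := mul_le_mul_of_nonneg_left u1 hlog
          have v2 := mul_le_mul_of_nonneg_left u2 (by linarith : (0:ℝ) ≤ 2 * q)
          linarith
        have t2 : (q + 1) * ((j:ℝ) + 1) * (3 / 2) ^ j ≤ (q + 1) * W := by
          rw [mul_assoc]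
          exact mul_le_mul_of_nonneg_left w2 (by linarith)
        have t3 : |Real.log (2 * Cp c d δ / b 0)| ≤ |Real.log (2 * Cp c d δ / b 0)| * W := by
          have := mul_le_mul_of_nonneg_left w0 habs
          linarith
        have t4 : 2 * (j:ℝ) ≤ 2 * W := by linarith
        linarith
    _ ≤ (1 / 4) ^ j := by
        rw [show -(2 * (j:ℝ)) = j * (-2) by ring, Real.exp_nat_mul]
        apply pow_le_pow_left₀ (Real.exp_pos _).le
        have h5 : Real.exp (-2) = (Real.exp 1)⁻¹ * (Real.exp 1)⁻¹ := by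
          rw [← Real.exp_neg, ← Real.exp_add]; norm_num
        have h6 : (Real.exp 1)⁻¹ ≤ 1 / 2 := by
          rw [one_div]
          exact inv_anti₀ (by norm_num) h2e
        have h7 : 0 < (Real.exp 1)⁻¹ := by positivity
        rw [h5]
        nlinarith

/-- the mean of an even power over the interval of parameters -/
lemma pow_int_le (h : Sq a b δ) (hc : 0 < c) (hcd : c ≤ d) (af : ℕ → ℝ) (φ : ℝ) (r M n : ℕ) :
    ∫ y in c..d, (U af φ (pt a b n y) M) ^ r ≤ (d - c) * ‖ZZ af φ r M‖ +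
      AA af M ^ r * (2 * Cp c d δ * (((r * M + 1 : ℕ) : ℝ) ^ (2 ^ r) / pt a b n c)) := by
  have h1 := pow_mean_int h hc hcd af φ r M n
  have hc1 : Continuous fun y => ((U af φ (pt a b n y) M : ℝ) : ℂ) ^ r :=
    (Complex.continuous_ofReal.comp (Upt_cont af φ a b n M)).pow _
  have h4 : ((∫ y in c..d, (U af φ (pt a b n y) M) ^ r : ℝ) : ℂ) =
      (∫ y in c..d, (((U af φ (pt a b n y) M : ℝ) : ℂ) ^ r - ZZ af φ r M)) + (d - c) * ZZ af φ r M := by
    rw [intervalIntegral.integral_sub (hc1.intervalIntegrable _ _) intervalIntegrable_const,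
      intervalIntegral.integral_const, ← intervalIntegral.integral_ofReal]
    simp only [Complex.ofReal_pow, Complex.real_smul, Complex.ofReal_sub]
    ring
  have h5 : ∫ y in c..d, (U af φ (pt a b n y) M) ^ r ≤
      ‖((∫ y in c..d, (U af φ (pt a b n y) M) ^ r : ℝ) : ℂ)‖ := by
    rw [Complex.norm_real]; exact Real.le_norm_self _
  refine h5.trans ?_
  rw [h4]
  refine (norm_add_le _ _).trans ?_
  rw [norm_mul]
  have h6 : ‖((d:ℂ) - c)‖ = d - c := by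
    rw [← Complex.ofReal_sub, Complex.norm_real, Real.norm_eq_abs, abs_of_nonneg (by linarith)]
  rw [h6]
  linarith

/-- uniform bounds on dyadic blocks, from the moments -/
theorem ae_sup (h : Sq a b δ) (hc : 0 < c) (hcd : c ≤ d) (φ : ℝ) {κ p : ℝ} (hκ : 1/2 < κ) (hp1 : 1 ≤ p) (hp2 : p ≤ 2)
    (hp : 1 < κ * p) {Cs : ℝ} (hCs : 1 ≤ Cs) (q : ℕ) : ∃ L : ℝ, 1 ≤ L ∧ ∀ (aj : ℕ → ℕ → ℝ) (C T : ℕ → ℝ) (M : ℕ → ℕ),
      (∀ j, 0 < C j) → (∀ j m : ℕ, 1 ≤ m → |aj j m| ≤ C j * (m:ℝ) ^ (-κ)) →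
      (∀ j, AA (aj j) (M j) ≤ Cs * (M j:ℝ) ^ 2) → (∀ j, 1 ≤ M j) → (∀ j, M j ≤ 2 ^ (q * (j + 1))) → (∀ j, 1 ≤ T j) →
      (∀ᶠ j : ℕ in atTop, L * C j * ((2 * (j / 4) : ℕ):ℝ) ^ (1 - 1/p) ≤ T j / 64) →
      ∀ᵐ y ∂(volume.restrict (Icc c d)), ∀ᶠ j : ℕ in atTop, ∀ n ∈ Finset.Ico (2 ^ j) (2 ^ (j + 1)),
        |U (aj j) φ (pt a b n y) (M j)| ≤ T j := by
  obtain ⟨L, hL, hZ⟩ := ZZ_mom hκ hp1 hp2 hp
  refine ⟨L, hL, fun aj C T M hC haj hAA hM1 hM2 hT hev => ?_⟩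
  obtain ⟨j0, hj0⟩ := err_small h hc hcd hCs q
  obtain ⟨j1, hj1⟩ := eventually_atTop.mp hev
  have hdc : 0 ≤ d - c := by linarith
  set g : ℕ → ℝ → ℝ := fun j y => ∑ n ∈ Finset.Ico (2 ^ j) (2 ^ (j + 1)),
    (U (aj j) φ (pt a b n y) (M j)) ^ (2 * (j / 4)) / (T j) ^ (2 * (j / 4)) with hg
  have hcont0 : ∀ (j n : ℕ), Continuous fun y => (U (aj j) φ (pt a b n y) (M j)) ^ (2 * (j / 4)) :=
    fun j n => (Upt_cont _ φ a b n _).pow _
  have hcont : ∀ j, Continuous (g j) := fun j =>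
    continuous_finsetSum _ fun n _ => (hcont0 j n).div_const _
  have hB : Summable fun j : ℕ => (1024 * (d - c)) * (1 / 4 : ℝ) ^ j + (1 / 2 : ℝ) ^ j :=
    ((summable_geometric_of_lt_one (by norm_num) (by norm_num)).mul_left _).add
      (summable_geometric_of_lt_one (by norm_num) (by norm_num))
  have hev2 : ∀ (j : ℕ) (x : ℝ), 0 ≤ x ^ (2 * (j / 4)) := fun j x => (even_two_mul _).pow_nonneg x
  have hz := ae_zero' hcd hcont hB (j0 := max (max j0 j1) 4) ?_ (fun j y =>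
    Finset.sum_nonneg fun n _ => div_nonneg (hev2 j _) (hev2 j _))
  · filter_upwards [hz] with y hy
    filter_upwards [hy.eventually (gt_mem_nhds one_pos), eventually_ge_atTop 4] with j hj hj4 n hn
    have hT0 : 0 < T j := by linarith [hT j]
    have h1 : (U (aj j) φ (pt a b n y) (M j)) ^ (2 * (j / 4)) / (T j) ^ (2 * (j / 4)) < 1 :=
      lt_of_le_of_lt (Finset.single_le_sum (f := fun n => (U (aj j) φ (pt a b n y) (M j)) ^ (2 * (j / 4)) / (T j) ^ (2 * (j / 4)))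
        (fun n _ => div_nonneg (hev2 j _) (hev2 j _)) hn) hj
    rw [div_lt_one (by positivity)] at h1
    have h2 : |U (aj j) φ (pt a b n y) (M j)| ^ (2 * (j / 4)) < (T j) ^ (2 * (j / 4)) := by
      rw [(even_two_mul (j / 4)).pow_abs]
      exact h1
    exact (lt_of_pow_lt_pow_left₀ _ hT0.le h2).le
  · intro j hj
    have hj0' : j0 ≤ j := by omega
    have hj1' : j1 ≤ j := by omega
    have hj4 : 4 ≤ j := by omega
    have hr : 1 ≤ j / 4 := by omega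
    have hT0 : 0 < T j := by linarith [hT j]
    have hT1 : (1:ℝ) ≤ (T j) ^ (2 * (j / 4)) := one_le_pow₀ (hT j)
    have e1 : ∫ y in c..d, g j y = ∑ n ∈ Finset.Ico (2 ^ j) (2 ^ (j + 1)),
        (∫ y in c..d, (U (aj j) φ (pt a b n y) (M j)) ^ (2 * (j / 4))) / (T j) ^ (2 * (j / 4)) := by
      rw [hg]
      simp only
      rw [intervalIntegral.integral_finsetSum]
      · apply Finset.sum_congr rfl
        intro n _
        rw [intervalIntegral.integral_div]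
      · intro n _
        exact ((hcont0 j n).div_const _).intervalIntegrable _ _
    rw [e1]
    have h1 : ∀ n ∈ Finset.Ico (2 ^ j) (2 ^ (j + 1)),
        (∫ y in c..d, (U (aj j) φ (pt a b n y) (M j)) ^ (2 * (j / 4))) / (T j) ^ (2 * (j / 4)) ≤
        (d - c) * (2 * (1 / 64) ^ (2 * (j / 4))) + (1 / 4) ^ j := by
      intro n hn
      rw [Finset.mem_Ico] at hn
      have h2 := pow_int_le h hc hcd (aj j) φ (2 * (j / 4)) (M j) n
      have h3 := hZ (aj j) φ (C j) (hC j) (haj j) (j / 4) (M j) hr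
      have h4 := hj0 j hj0' n hn.1 (M j) (hM1 j) (hM2 j) (j / 4) le_rfl (2 * (j / 4)) le_rfl
      have h5 : AA (aj j) (M j) ^ (2 * (j / 4)) ≤ (Cs * (M j:ℝ) ^ 2) ^ (2 * (j / 4)) :=
        pow_le_pow_left₀ (AA_nonneg _ _) (hAA j) _
      have hCp := Cp_pos hc hcd h.dpos
      have hpt := pt_pos h n c
      have h6 : AA (aj j) (M j) ^ (2 * (j / 4)) * (2 * Cp c d δ * (((2 * (j / 4) * M j + 1 : ℕ) : ℝ) ^ (2 ^ (2 * (j / 4))) / pt a b n c)) ≤
          (1 / 4) ^ j := (mul_le_mul_of_nonneg_right h5 (by positivity)).trans h4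
      have h7 : ‖ZZ (aj j) φ (2 * (j / 4)) (M j)‖ ≤ 2 * (T j / 64) ^ (2 * (j / 4)) := by
        refine h3.trans ?_
        apply mul_le_mul_of_nonneg_left _ (by norm_num)
        apply pow_le_pow_left₀ _ (hj1 j hj1')
        have := hC j
        positivity
      rw [div_le_iff₀ (by linarith)]
      calc ∫ y in c..d, (U (aj j) φ (pt a b n y) (M j)) ^ (2 * (j / 4))
          ≤ (d - c) * (2 * (T j / 64) ^ (2 * (j / 4))) + (1 / 4) ^ j := by
            refine h2.trans (add_le_add (mul_le_mul_of_nonneg_left h7 hdc) h6)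
        _ = (d - c) * (2 * (1 / 64) ^ (2 * (j / 4))) * (T j) ^ (2 * (j / 4)) + (1 / 4) ^ j := by
            rw [show T j / 64 = (1 / 64) * T j by ring, mul_pow]; ring
        _ ≤ (d - c) * (2 * (1 / 64) ^ (2 * (j / 4))) * (T j) ^ (2 * (j / 4)) + (1 / 4) ^ j * (T j) ^ (2 * (j / 4)) := by
            have : (0:ℝ) < (1 / 4) ^ j := by positivity
            nlinarith
        _ = _ := by ring
    refine (Finset.sum_le_sum h1).trans ?_
    rw [Finset.sum_const, card_blk, nsmul_eq_mul]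
    push_cast
    have h8 : (2:ℝ) ^ j * (1 / 64 : ℝ) ^ (2 * (j / 4)) ≤ 512 * (1 / 4) ^ j := by
      have e2 : (1 / 64 : ℝ) ^ (2 * (j / 4)) = (1 / 8) ^ (4 * (j / 4)) := by
        rw [pow_mul, pow_mul]; norm_num
      have e3 : (1 / 8 : ℝ) ^ (4 * (j / 4)) ≤ 512 * (1 / 8) ^ j := by
        have : (1 / 8 : ℝ) ^ (4 * (j / 4) + 3) ≤ (1 / 8) ^ j := pow_le_pow_of_le_one (by norm_num) (by norm_num) (by omega)
        rw [pow_add] at this
        norm_num at this ⊢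
        linarith
      rw [e2]
      calc (2:ℝ) ^ j * (1 / 8 : ℝ) ^ (4 * (j / 4)) ≤ 2 ^ j * (512 * (1 / 8) ^ j) := by gcongr
        _ = 512 * (2 * (1 / 8)) ^ j := by rw [mul_pow]; ring
        _ = _ := by norm_num
    have h9 : (2:ℝ) ^ j * (1 / 4) ^ j = (1 / 2) ^ j := by rw [← mul_pow]; norm_num
    calc (2:ℝ) ^ j * ((d - c) * (2 * (1 / 64) ^ (2 * (j / 4))) + (1 / 4) ^ j)
        = 2 * (d - c) * (2 ^ j * (1 / 64) ^ (2 * (j / 4))) + 2 ^ j * (1 / 4) ^ j := by ring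
      _ ≤ 2 * (d - c) * (512 * (1 / 4) ^ j) + (1 / 2) ^ j := by
          rw [h9]
          have := mul_le_mul_of_nonneg_left h8 (by linarith : (0:ℝ) ≤ 2 * (d - c))
          linarith
      _ = _ := by ring

/-- the error term is close to the model polynomials of large degree -/
theorem ae_errB (hX : Ctx E af φ) (h : Sq a b δ) (hc : 0 < c) (hcd : c ≤ d) {q : ℕ} (hq : 400 ≤ q) :
    ∀ᵐ y ∂(volume.restrict (Icc c d)), ∀ᶠ j : ℕ in atTop, ∀ n ∈ Finset.Ico (2 ^ j) (2 ^ (j + 1)),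
      |E (pt a b n y) - U af φ (pt a b n y) (2 ^ (q * (j + 1)))| ≤ 1 := by
  obtain ⟨C, hC, ρ, hρ, hl⟩ := hX.l2 c d hcd
  have hsc : 0 < δ * c := mul_pos h.dpos hc
  obtain ⟨n2, hn2⟩ := ev_poly (h.pos 0) hsc ρ 0
  obtain ⟨n3, hn3⟩ := ev_poly (h.pos 0) hsc (2 * 2 ^ (q * 100)) (q * 100)
  set Mf : ℕ → ℕ := fun n => 2 ^ (q * (Nat.log 2 n + 1)) with hMf
  have hlow : ∀ n : ℕ, (n + 1) ^ q ≤ Mf n := by
    intro n
    rw [hMf]
    simp only
    rw [mul_comm q, pow_mul]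
    exact Nat.pow_le_pow_left (Nat.lt_pow_succ_log_self (by norm_num) n) _
  have hup : ∀ n : ℕ, Mf n ≤ (2 * (n + 1)) ^ q := by
    intro n
    rw [hMf]
    simp only
    rw [mul_comm q, pow_mul]
    apply Nat.pow_le_pow_left
    rw [pow_succ]
    rcases Nat.eq_zero_or_pos n with h0 | h0
    · subst h0; simp
    · have := Nat.pow_log_le_self 2 (by omega : n ≠ 0)
      omega
  have hs : Summable fun n : ℕ => C * ((n:ℝ) + 1) ^ (-2:ℝ) := by
    apply Summable.mul_left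
    have h1 : Summable fun n : ℕ => (n:ℝ) ^ (-2:ℝ) := by
      rw [Real.summable_nat_rpow]; norm_num
    have h2 := (summable_nat_add_iff 1).mpr h1
    refine h2.congr fun n => ?_
    push_cast
    rfl
  have h1 := ae_zero (μ := volume.restrict (Icc c d))
    (g := fun n y => (E (pt a b n y) - U af φ (pt a b n y) (Mf n)) ^ 2)
    (fun n => ((pt_meas hX.meas n).sub (Upt_cont af φ a b n _).measurable).pow_const 2) hs (j0 := max n2 n3) ?_
    (fun _ _ => sq_nonneg _)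
  · filter_upwards [h1] with y hy
    obtain ⟨n0, hn0⟩ := eventually_atTop.mp (hy.eventually (gt_mem_nhds one_pos))
    filter_upwards [eventually_ge_atTop n0] with j hj n hn
    rw [Finset.mem_Ico] at hn
    have hlog : Nat.log 2 n = j := Nat.log_eq_of_pow_le_of_lt_pow hn.1 hn.2
    have h2 := hn0 n (hj.trans ((Nat.lt_two_pow_self).le.trans hn.1))
    have e : Mf n = 2 ^ (q * (j + 1)) := by rw [hMf]; simp only; rw [hlog]
    rw [e] at h2
    rw [← sq_le_one_iff_abs_le_one]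
    exact h2.le
  · intro n hn
    have hn2' : n2 ≤ n := by omega
    have hn3' : n3 ≤ n := by omega
    have hpl := pt_low h hc.le n
    have hρ' : ρ ≤ pt a b n c := by
      have := hn2 n hn2'
      rw [pow_zero, mul_one] at this
      linarith
    have hbig : 2 ^ (q * 100) * ((n:ℝ) + 1) ^ (q * 100) ≤ pt a b n c / 2 := by
      have := (hn3 n hn3').trans hpl
      rw [mul_assoc] at this
      linarith
    have hM400 : ((Mf n : ℕ) : ℝ) ^ 100 ≤ pt a b n c / 2 := by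
      refine le_trans ?_ hbig
      have h3 : (Mf n : ℝ) ≤ (2 * ((n:ℝ) + 1)) ^ q := by exact_mod_cast hup n
      calc (Mf n : ℝ) ^ 100 ≤ ((2 * ((n:ℝ) + 1)) ^ q) ^ 100 := pow_le_pow_left₀ (Nat.cast_nonneg _) h3 _
        _ = (2 * ((n:ℝ) + 1)) ^ (q * 100) := by rw [← pow_mul]
        _ = _ := mul_pow _ _ _
    have hM1 : 1 ≤ Mf n := Nat.one_le_two_pow
    refine (hl (a n) (b n) (h.one n) (h.pos n) hρ' (Mf n) hM1 hM400).trans ?_
    apply ENNReal.ofReal_le_ofReal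
    apply mul_le_mul_of_nonneg_left _ hC.le
    have hn1 : (1:ℝ) ≤ (n:ℝ) + 1 := by
      have : (0:ℝ) ≤ n := Nat.cast_nonneg n
      linarith
    have hlr : ((n:ℝ) + 1) ^ q ≤ Mf n := by exact_mod_cast hlow n
    calc (Mf n : ℝ) ^ (-(1/200):ℝ) ≤ (((n:ℝ) + 1) ^ q) ^ (-(1/200):ℝ) :=
          Real.rpow_le_rpow_of_nonpos (by positivity) hlr (by norm_num)
      _ ≤ ((n:ℝ) + 1) ^ (-2:ℝ) := by
          rw [← Real.rpow_natCast, ← Real.rpow_mul (by linarith)]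
          apply Real.rpow_le_rpow_of_exponent_le hn1
          have hqr : (400:ℝ) ≤ q := by exact_mod_cast hq
          linarith

end Pool.Agent.D0H48.Gr
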