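import Mathlib
import Pool.Agent.D0H48.Gr.Blk

/-!
Second moments of block sums of `(U + T) ^ k`.
-/

set_option autoImplicit false

open MeasureTheory Filter Topology Set Real
open scoped ENNReal
open Pool.Agent.H383.Gen (U Bd)
open Pool.Agent.Y969.TM
open Pool.Agent.R306.GP

namespace Pool.Agent.D0H48.Gr

variable {af : ℕ → ℝ} {φ : ℝ} {a b : ℕ → ℝ} {δ c d : ℝ}

/-- the mean of `(U + T) ^ k` -/
noncomputable def GG (af : ℕ → ℝ) (φ T : ℝ) (k M : ℕ) : ℂ :=
  ∑ s ∈ Finset.range (k + 1), ((T ^ (k - s) * (k.choose s : ℝ) : ℝ) : ℂ) * ZZ af φ s M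

lemma shift_expand (af : ℕ → ℝ) (φ T R : ℝ) (k M : ℕ) :
    (((U af φ R M + T : ℝ)) : ℂ) ^ k - GG af φ T k M =
      ∑ s ∈ Finset.range (k + 1), ((T ^ (k - s) * (k.choose s : ℝ) : ℝ) : ℂ) *
        (((U af φ R M : ℝ) : ℂ) ^ s - ZZ af φ s M) := by
  unfold GG
  rw [Complex.ofReal_add, add_pow, ← Finset.sum_sub_distrib]
  apply Finset.sum_congr rfl
  intro s _
  push_cast
  ring

/-- second moment of the block sums of `(U + T) ^ k` -/
lemma shift_sq (h : Sq a b δ) (hc : 0 < c) (hcd : c ≤ d) (af : ℕ → ℝ) (φ : ℝ) {T A V : ℝ} (hT : 0 ≤ T) (hA : 1 ≤ A)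
    (k M N1 N2 : ℕ) (hAA : AA af M ≤ A)
    (hV : ∀ s ≤ k, ((N2 - N1 : ℕ):ℝ) * (d - c) + 2 * ((N2 - N1 : ℕ) * ((N2 - N1 : ℕ) *
        (2 * Cp c d δ * (((s * M + 1 : ℕ) : ℝ) ^ (2 ^ s) / pt a b N1 c)))) ≤ V) :
    ∫ y in c..d, ‖∑ n ∈ Finset.Ico N1 N2, ((((U af φ (pt a b n y) M + T : ℝ)) : ℂ) ^ k - GG af φ T k M)‖ ^ 2 ≤
      (T + A) ^ (2 * k) * V := by
  classical
  set w : ℕ → ℝ := fun s => T ^ (k - s) * (k.choose s : ℝ) with hw
  have hw0 : ∀ s, 0 ≤ w s := fun s => by positivity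
  set S : ℕ → ℝ → ℂ := fun s y => ∑ n ∈ Finset.Ico N1 N2, (((U af φ (pt a b n y) M : ℝ) : ℂ) ^ s - ZZ af φ s M) with hS
  have e1 : ∀ y, ∑ n ∈ Finset.Ico N1 N2, ((((U af φ (pt a b n y) M + T : ℝ)) : ℂ) ^ k - GG af φ T k M) =
      ∑ s ∈ Finset.range (k + 1), ((w s : ℝ) : ℂ) * S s y := by
    intro y
    simp only [shift_expand, hS, hw]
    rw [Finset.sum_comm]
    apply Finset.sum_congr rfl
    intro s _
    rw [Finset.mul_sum]
  have hA0 : 0 < A := by linarith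
  have hScont : ∀ s, Continuous (S s) := by
    intro s
    simp only [hS]
    exact continuous_finsetSum _ fun n _ =>
      ((Complex.continuous_ofReal.comp (Upt_cont af φ a b n _)).pow s).sub continuous_const
  have hwA : ∑ s ∈ Finset.range (k + 1), w s * A ^ s = (T + A) ^ k := by
    rw [add_comm T A, add_pow]
    apply Finset.sum_congr rfl
    intro s _
    rw [hw]
    ring
  have e2 : ∀ y, ‖∑ s ∈ Finset.range (k + 1), ((w s : ℝ) : ℂ) * S s y‖ ^ 2 ≤
      (T + A) ^ k * ∑ s ∈ Finset.range (k + 1), w s * (A ^ s)⁻¹ * ‖S s y‖ ^ 2 := by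
    intro y
    have h1 : ‖∑ s ∈ Finset.range (k + 1), ((w s : ℝ) : ℂ) * S s y‖ ≤ ∑ s ∈ Finset.range (k + 1), w s * ‖S s y‖ := by
      refine (norm_sum_le _ _).trans (le_of_eq ?_)
      apply Finset.sum_congr rfl
      intro s _
      rw [norm_mul, Complex.norm_real, Real.norm_eq_abs, abs_of_nonneg (hw0 s)]
    calc ‖∑ s ∈ Finset.range (k + 1), ((w s : ℝ) : ℂ) * S s y‖ ^ 2 ≤ (∑ s ∈ Finset.range (k + 1), w s * ‖S s y‖) ^ 2 :=
          pow_le_pow_left₀ (norm_nonneg _) h1 2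
      _ ≤ (∑ s ∈ Finset.range (k + 1), w s * A ^ s) * ∑ s ∈ Finset.range (k + 1), w s * (A ^ s)⁻¹ * ‖S s y‖ ^ 2 := by
          apply Finset.sum_sq_le_sum_mul_sum_of_sq_le_mul
          · intro s _
            have := hw0 s
            positivity
          · intro s _
            have := hw0 s
            positivity
          · intro s _
            have : A ^ s ≠ 0 := by positivity
            apply le_of_eq
            field_simp
      _ = _ := by rw [hwA]
  have hcontL : Continuous fun y => ‖∑ n ∈ Finset.Ico N1 N2, ((((U af φ (pt a b n y) M + T : ℝ)) : ℂ) ^ k - GG af φ T k M)‖ ^ 2 := by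
    simp only [e1]
    exact (continuous_finsetSum _ fun s _ => continuous_const.mul (hScont s)).norm.pow 2
  have hcontR : Continuous fun y => (T + A) ^ k * ∑ s ∈ Finset.range (k + 1), w s * (A ^ s)⁻¹ * ‖S s y‖ ^ 2 :=
    continuous_const.mul (continuous_finsetSum _ fun s _ => continuous_const.mul ((hScont s).norm.pow 2))
  have hdc : 0 ≤ d - c := by linarith
  have hCp := Cp_pos hc hcd h.dpos
  have hpt := pt_pos h N1 c
  have hV0 : 0 ≤ V := le_trans (by positivity) (hV 0 (Nat.zero_le k))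
  have hTA : 0 ≤ (T + A) ^ k := by positivity
  calc ∫ y in c..d, ‖∑ n ∈ Finset.Ico N1 N2, ((((U af φ (pt a b n y) M + T : ℝ)) : ℂ) ^ k - GG af φ T k M)‖ ^ 2
      ≤ ∫ y in c..d, (T + A) ^ k * ∑ s ∈ Finset.range (k + 1), w s * (A ^ s)⁻¹ * ‖S s y‖ ^ 2 := by
        apply intervalIntegral.integral_mono_on hcd (hcontL.intervalIntegrable _ _) (hcontR.intervalIntegrable _ _)
        intro y _
        rw [e1]
        exact e2 y
    _ = (T + A) ^ k * ∑ s ∈ Finset.range (k + 1), w s * (A ^ s)⁻¹ * ∫ y in c..d, ‖S s y‖ ^ 2 := by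
        rw [intervalIntegral.integral_const_mul, intervalIntegral.integral_finsetSum]
        · congr 1
          apply Finset.sum_congr rfl
          intro s _
          rw [intervalIntegral.integral_const_mul]
        · intro s _
          exact (continuous_const.mul ((hScont s).norm.pow 2)).intervalIntegrable _ _
    _ ≤ (T + A) ^ k * ∑ s ∈ Finset.range (k + 1), w s * (A ^ s)⁻¹ * (A ^ s * (A ^ s * V)) := by
        apply mul_le_mul_of_nonneg_left _ hTA
        apply Finset.sum_le_sum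
        intro s hs
        have hsk : s ≤ k := by have := Finset.mem_range.mp hs; omega
        apply mul_le_mul_of_nonneg_left _ (by have := hw0 s; positivity)
        have h2 := pow_sq h hc hcd af φ s M N1 N2
        refine h2.trans ?_
        have h3 : AA af M ^ s ≤ A ^ s := pow_le_pow_left₀ (AA_nonneg _ _) hAA s
        have h4 := AA_nonneg af M
        exact mul_le_mul h3 (mul_le_mul h3 (hV s hsk) (by positivity) (by positivity)) (by positivity) (by positivity)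
    _ = (T + A) ^ k * ((∑ s ∈ Finset.range (k + 1), w s * A ^ s) * V) := by
        congr 1
        rw [Finset.sum_mul]
        apply Finset.sum_congr rfl
        intro s _
        have : A ^ s ≠ 0 := by positivity
        field_simp
    _ = _ := by rw [hwA]; ring

/-- block sums of `(U + T) ^ (2 r)` for almost every `y` -/
theorem ae_shift (h : Sq a b δ) (hc : 0 < c) (hcd : c ≤ d) {af : ℕ → ℝ} {Cs : ℝ} (hCs : 1 ≤ Cs)
    (hAA : ∀ M : ℕ, AA af M ≤ Cs * (M:ℝ) ^ 2) (φ : ℝ) {q : ℕ} {T : ℕ → ℝ} {M r : ℕ → ℕ} (hT : ∀ j, 0 ≤ T j) (hM1 : ∀ j, 1 ≤ M j)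
    (hM2 : ∀ j, M j ≤ 2 ^ (q * (j + 1))) (hr : ∀ j, r j ≤ j / 4)
    (hev : ∀ᶠ j : ℕ in atTop, (T j + Cs * (M j:ℝ) ^ 2) ^ (4 * r j) ≤ (5 / 4) ^ j) :
    ∀ᵐ y ∂(volume.restrict (Icc c d)), ∀ᶠ j : ℕ in atTop,
      ‖∑ n ∈ Finset.Ico (2 ^ j) (2 ^ (j + 1)), ((((U af φ (pt a b n y) (M j) + T j : ℝ)) : ℂ) ^ (2 * r j) -
        GG af φ (T j) (2 * r j) (M j))‖ ≤ (7 / 4) ^ j := by
  obtain ⟨j0, hj0⟩ := err_small h hc hcd hCs q
  obtain ⟨j1, hj1⟩ := eventually_atTop.mp hev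
  have hdc : 0 ≤ d - c := by linarith
  have hCp := Cp_pos hc hcd h.dpos
  set g : ℕ → ℝ → ℝ := fun j y => ‖∑ n ∈ Finset.Ico (2 ^ j) (2 ^ (j + 1)),
    ((((U af φ (pt a b n y) (M j) + T j : ℝ)) : ℂ) ^ (2 * r j) - GG af φ (T j) (2 * r j) (M j))‖ ^ 2 * (16 / 49) ^ j with hg
  have hcont : ∀ j, Continuous (g j) := by
    intro j
    refine Continuous.mul ((continuous_finsetSum _ fun n _ => ?_).norm.pow 2) continuous_const
    exact ((Complex.continuous_ofReal.comp ((Upt_cont af φ a b n _).add continuous_const)).pow _).sub continuous_const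
  have hB : Summable fun j : ℕ => ((d - c) + 4) * (40 / 49 : ℝ) ^ j :=
    (summable_geometric_of_lt_one (by norm_num) (by norm_num)).mul_left _
  have hz := ae_zero' hcd hcont hB (j0 := max j0 j1) ?_ (fun j y => by rw [hg]; positivity)
  · filter_upwards [hz] with y hy
    filter_upwards [hy.eventually (gt_mem_nhds one_pos)] with j hj
    rw [hg] at hj
    simp only at hj
    have h1 : (0:ℝ) < (16 / 49) ^ j := by positivity
    rw [← lt_div_iff₀ h1] at hj
    have h2 : 1 / (16 / 49 : ℝ) ^ j = ((7 / 4) ^ j) ^ 2 := by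
      rw [← pow_mul, mul_comm j 2, pow_mul, one_div, ← inv_pow]; norm_num
    rw [h2] at hj
    exact (lt_of_pow_lt_pow_left₀ 2 (by positivity) hj).le
  · intro j hj
    have hj0' : j0 ≤ j := by omega
    have hj1' : j1 ≤ j := by omega
    have hM1r : (1:ℝ) ≤ M j := by exact_mod_cast hM1 j
    have hA1 : (1:ℝ) ≤ Cs * (M j:ℝ) ^ 2 := by
      have : (1:ℝ) ≤ (M j:ℝ) ^ 2 := one_le_pow₀ hM1r
      nlinarith
    have hcard : (2 ^ (j + 1) - 2 ^ j : ℕ) = 2 ^ j := by rw [pow_succ]; omega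
    have h1 := shift_sq h hc hcd af φ (T := T j) (A := Cs * (M j:ℝ) ^ 2) (V := 2 ^ j * ((d - c) + 4)) (hT j) hA1
      (2 * r j) (M j) (2 ^ j) (2 ^ (j + 1)) (hAA _) (by
        intro s hs
        rw [hcard]
        have h4 := hj0 j hj0' (2 ^ j) le_rfl (M j) (hM1 j) (hM2 j) (r j) (hr j) s hs
        have hpt := pt_pos h (2 ^ j) c
        have h5 : 2 * Cp c d δ * (((s * M j + 1 : ℕ) : ℝ) ^ (2 ^ s) / pt a b (2 ^ j) c) ≤ (1 / 4) ^ j := by
          refine le_trans ?_ h4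
          have h6 : (1:ℝ) ≤ (Cs * (M j:ℝ) ^ 2) ^ (2 * r j) := one_le_pow₀ hA1
          have h7 : 0 ≤ 2 * Cp c d δ * (((s * M j + 1 : ℕ) : ℝ) ^ (2 ^ s) / pt a b (2 ^ j) c) := by positivity
          nlinarith
        push_cast at h5 ⊢
        have h8 : (2:ℝ) ^ j * (2 ^ j * (1 / 4) ^ j) = 1 := by
          rw [← mul_pow, ← mul_pow]; norm_num
        have h9 : (0:ℝ) < 2 ^ j := by positivity
        have h10 : (2:ℝ) ^ j * (2 ^ j * (2 * Cp c d δ * (((s:ℝ) * (M j:ℝ) + 1) ^ 2 ^ s / pt a b (2 ^ j) c))) ≤ 1 := by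
          calc _ ≤ (2:ℝ) ^ j * (2 ^ j * (1 / 4) ^ j) :=
                mul_le_mul_of_nonneg_left (mul_le_mul_of_nonneg_left h5 h9.le) h9.le
            _ = 1 := h8
        have h11 : (1:ℝ) ≤ 2 ^ j := one_le_pow₀ (by norm_num)
        nlinarith)
    have h2 : (T j + Cs * (M j:ℝ) ^ 2) ^ (2 * (2 * r j)) ≤ (5 / 4) ^ j := by
      have := hj1 j hj1'
      rwa [show 2 * (2 * r j) = 4 * r j by ring]
    rw [hg]
    simp only
    rw [intervalIntegral.integral_mul_const]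
    have h3 : (0:ℝ) ≤ 2 ^ j * ((d - c) + 4) := by positivity
    calc _ ≤ ((5 / 4) ^ j * (2 ^ j * ((d - c) + 4))) * (16 / 49) ^ j := by
          apply mul_le_mul_of_nonneg_right _ (by positivity)
          exact h1.trans (mul_le_mul_of_nonneg_right h2 h3)
      _ = ((d - c) + 4) * ((5 / 4) * 2 * (16 / 49)) ^ j := by rw [mul_pow, mul_pow]; ring
      _ = _ := by norm_num

end Pool.Agent.D0H48.Gr
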