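import Mathlib
import Pool.Agent.R306.GP.CircIID
import Pool.Agent.H383.Full
import Pool.Agent.D0H48.Gr.Var

/-!
The model: lower bounds for the means of `(U + T) ^ k`.
-/

set_option autoImplicit false

open MeasureTheory Filter Topology Set Real
open scoped ENNReal
open Pool.Agent.H383.AP
open Pool.Agent.H383.Gen (U Bd)
open Pool.Agent.H452R2.Win (Bdw)
open Pool.Agent.Y969.TM
open Pool.Agent.R306.GP

namespace Pool.Agent.D0H48.Gr

open Classical in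
/-- the data: approximation and large values along a progression -/
structure Mod (E : ℝ → ℝ) (af : ℕ → ℝ) (φ : ℝ) : Prop where
  ctx : Ctx E af φ
  bdw : Bdw af
  prog : ∃ τ X : ℝ, Transcendental ℤ τ ∧
    (∀ ε : ℝ, 0 < ε → ∀ᶠ M : ℕ in atTop, ∀ᶠ N : ℕ in atTop,
      ∑ n ∈ Finset.range N, (E (X + n * τ) - U af φ (X + n * τ) M) ^ 2 ≤ ε * N) ∧
    ∃ C K0 : ℝ, 0 < C ∧ ∀ K : ℝ, K0 ≤ K → ∀ᶠ N : ℕ in atTop,
      Real.exp (-(C * K ^ 4 * (Real.log K) ^ 3)) * N ≤ (((Finset.range N).filter (fun n : ℕ => K < E (X + n * τ))).card : ℝ)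

variable {E : ℝ → ℝ} {af : ℕ → ℝ} {φ : ℝ}

/-- coefficients above `K²` -/
lemma cut_bd {C κ₀ κ : ℝ} (hC : 0 ≤ C) (h : ∀ m : ℕ, 1 ≤ m → |af m| ≤ C * (m:ℝ) ^ (-κ₀)) (hκ : κ ≤ κ₀) {K : ℕ} (hK : 1 ≤ K) :
    ∀ m : ℕ, 1 ≤ m → |cutc af K m| ≤ (C * (K:ℝ) ^ (-(2 * (κ₀ - κ)))) * (m:ℝ) ^ (-κ) := by
  intro m hm
  have hm0 : (0:ℝ) < m := by exact_mod_cast hm
  have hK0 : (0:ℝ) < K := by exact_mod_cast hK
  unfold cutc
  split_ifs with hlt
  · refine (h m hm).trans ?_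
    rw [mul_assoc]
    apply mul_le_mul_of_nonneg_left _ hC
    have h1 : (m:ℝ) ^ (-κ₀) = (m:ℝ) ^ (-(κ₀ - κ)) * (m:ℝ) ^ (-κ) := by
      rw [← Real.rpow_add hm0]; congr 1; ring
    rw [h1]
    apply mul_le_mul_of_nonneg_right _ (by positivity)
    have h2 : (K:ℝ) ^ (-(2 * (κ₀ - κ))) = ((K:ℝ) ^ 2) ^ (-(κ₀ - κ)) := by
      rw [← Real.rpow_natCast, ← Real.rpow_mul hK0.le]; congr 1; push_cast; ring
    rw [h2]
    apply Real.rpow_le_rpow_of_nonpos (by positivity) _ (by linarith)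
    exact_mod_cast hlt.le
  · rw [abs_zero]
    positivity

/-- the moments of the part above `K²` -/
lemma ZZ_cut (φ : ℝ) (hb : Bd af) : ∃ L : ℝ, 0 < L ∧ ∀ K M r : ℕ, 1 ≤ K → 1 ≤ r →
    ‖ZZ (cutc af K) φ (2 * r) M‖ ≤ 2 * (L * (K:ℝ) ^ (-(23/50):ℝ) * ((2 * r : ℕ):ℝ) ^ (1/2:ℝ)) ^ (2 * r) := by
  obtain ⟨C, hC, hCa⟩ := hb
  have hCa' : ∀ m : ℕ, 1 ≤ m → |af m| ≤ C * (m:ℝ) ^ (-(37/50):ℝ) := by
    intro m hm
    have hm0 : (0:ℝ) < m := by exact_mod_cast hm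
    have h1 := hCa m hm
    have h2 : (√(m:ℝ)) ^ (-(37/25):ℝ) = (m:ℝ) ^ (-(37/50):ℝ) := by
      rw [Real.sqrt_eq_rpow, ← Real.rpow_mul hm0.le]; norm_num
    rwa [h2] at h1
  obtain ⟨L, hL, hZ⟩ := ZZ_mom (κ := 51/100) (p := 2) (by norm_num) (by norm_num) le_rfl (by norm_num)
  refine ⟨L * C, by positivity, fun K M r hK hr => ?_⟩
  have hK0 : (0:ℝ) < K := by exact_mod_cast hK
  have h1 := hZ (cutc af K) φ (C * (K:ℝ) ^ (-(2 * (37/50 - 51/100)):ℝ)) (by positivity)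
    (cut_bd hC.le hCa' (by norm_num) hK) r M hr
  refine h1.trans (le_of_eq ?_)
  congr 3
  · rw [mul_assoc]
    congr 3
    norm_num
  · norm_num

/-- the mean of `(U + T) ^ k` along a progression -/
lemma GG_mean {τ : ℝ} (hτ : Transcendental ℤ τ) (af : ℕ → ℝ) (φ X T : ℝ) (k M : ℕ) :
    Tendsto (rm (fun n : ℕ => (U af φ (X + n * τ) M + T) ^ k)) atTop (𝓝 (GG af φ T k M).re) := by
  have h1 : HasMean (fun n : ℕ => (((U af φ (X + n * τ) M + T : ℝ)) : ℂ) ^ k) (GG af φ T k M) := by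
    have e1 : (fun n : ℕ => (((U af φ (X + n * τ) M + T : ℝ)) : ℂ) ^ k) =
        ∑ s ∈ Finset.range (k + 1), ((T ^ (k - s) * (k.choose s : ℝ) : ℝ) : ℂ) •
          (fun n : ℕ => ((U af φ (X + n * τ) M : ℝ) : ℂ) ^ s) := by
      funext n
      rw [Finset.sum_apply, Complex.ofReal_add, add_pow]
      apply Finset.sum_congr rfl
      intro s _
      rw [Pi.smul_apply, smul_eq_mul]
      push_cast
      ring
    rw [e1]
    unfold GG
    refine HasMean.sum _ _ _ fun s _ => ?_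
    have h2 := powR_mean af φ τ X s M
    rw [ZR_eq hτ] at h2
    exact h2.smul _
  unfold HasMean at h1
  have : cm (fun n : ℕ => (((U af φ (X + n * τ) M + T : ℝ)) : ℂ) ^ k) =
      fun N => ((rm (fun n : ℕ => (U af φ (X + n * τ) M + T) ^ k) N : ℝ) : ℂ) := by
    funext N
    rw [← cm_ofReal]
    push_cast
    rfl
  rw [this] at h1
  exact (Complex.continuous_re.tendsto _).comp h1

lemma GG_zero (af : ℕ → ℝ) (φ : ℝ) (k M : ℕ) : GG af φ 0 k M = ZZ af φ k M := by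
  unfold GG
  rw [Finset.sum_eq_single k]
  · simp
  · intro s hs hne
    have : s < k := by have := Finset.mem_range.mp hs; omega
    rw [zero_pow (by omega)]
    simp
  · intro h
    exact absurd (Finset.mem_range.mpr (Nat.lt_succ_self k)) h

open Classical in
/-- lower bound for the means -/
theorem model_low (hm : Mod E af φ) : ∃ C : ℝ, 0 < C ∧ ∃ K1 : ℕ, ∀ K : ℕ, K1 ≤ K → ∀ M : ℕ, K ^ 6 ≤ M →
    ∀ (T : ℝ) (r : ℕ), 0 ≤ T →
      (1 / 2) * Real.exp (-(C * (K:ℝ) ^ 4 * (Real.log K) ^ 3)) * ((K:ℝ) - 1 + T) ^ (2 * r) ≤ (GG af φ T (2 * r) M).re := by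
  obtain ⟨τ, X, hτ, happ, C, K0, hC, htail⟩ := hm.prog
  obtain ⟨L, hL, hZ⟩ := ZZ_cut φ hm.ctx.bd
  refine ⟨C, hC, ?_⟩
  -- conditions on `K`
  have c1 : ∀ᶠ K : ℕ in atTop, K0 ≤ (K:ℝ) := tendsto_natCast_atTop_atTop.eventually_ge_atTop K0
  have c2 : ∀ᶠ K : ℕ in atTop, 2 * (L * ((K:ℝ) ^ 6) ^ (-(23/50):ℝ) * (2 * (K:ℝ) ^ 5) ^ (1/2:ℝ)) ≤ Real.exp (-1) := by
    have h1 : Tendsto (fun K : ℕ => 2 * L * (2:ℝ) ^ (1/2:ℝ) * (K:ℝ) ^ (-(13/50):ℝ)) atTop (𝓝 (2 * L * (2:ℝ) ^ (1/2:ℝ) * 0)) :=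
      ((tendsto_rpow_neg_atTop (by norm_num : (0:ℝ) < 13/50)).comp tendsto_natCast_atTop_atTop).const_mul _
    rw [mul_zero] at h1
    filter_upwards [h1.eventually (gt_mem_nhds (Real.exp_pos (-1))), eventually_ge_atTop 1] with K hK hK1
    have hK0 : (0:ℝ) < K := by exact_mod_cast hK1
    refine le_trans (le_of_eq ?_) hK.le
    rw [Real.mul_rpow (by norm_num) (by positivity), ← Real.rpow_natCast, ← Real.rpow_natCast, ← Real.rpow_mul hK0.le,
      ← Real.rpow_mul hK0.le]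
    have : (K:ℝ) ^ (-(13/50):ℝ) = (K:ℝ) ^ (((6:ℕ):ℝ) * (-(23/50):ℝ)) * (K:ℝ) ^ (((5:ℕ):ℝ) * (1/2:ℝ)) := by
      rw [← Real.rpow_add hK0]; norm_num
    rw [this]
    ring
  have c3 : ∀ᶠ K : ℕ in atTop, C * (Real.log K) ^ 3 ≤ K := by
    have h1 := (Real.isLittleO_pow_log_id_atTop (n := 3)).bound (by positivity : (0:ℝ) < 1 / C)
    filter_upwards [tendsto_natCast_atTop_atTop.eventually h1, eventually_ge_atTop 1] with K hK hK1
    rw [Real.norm_eq_abs, Real.norm_eq_abs] at hK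
    simp only [id_eq, abs_of_nonneg (Nat.cast_nonneg (α := ℝ) K)] at hK
    have h2 := (le_abs_self _).trans hK
    calc C * (Real.log K) ^ 3 ≤ C * (1 / C * K) := mul_le_mul_of_nonneg_left h2 hC.le
      _ = K := by field_simp
  obtain ⟨K1, hK1⟩ := eventually_atTop.mp (c1.and (c2.and (c3.and (eventually_ge_atTop 4))))
  refine ⟨K1, fun K hK M hM T r hT => ?_⟩
  obtain ⟨h1, h2, h3, h4⟩ := hK1 K hK
  have hKr : (4:ℝ) ≤ K := by exact_mod_cast h4
  have hK0 : (0:ℝ) < K := by linarith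
  set p : ℝ := Real.exp (-(C * (K:ℝ) ^ 4 * (Real.log K) ^ 3)) with hp
  have hp0 : 0 < p := Real.exp_pos _
  have hKM : 1 ≤ M := le_trans (Nat.one_le_pow _ _ (by omega)) hM
  -- the moment of order `2 K^5` of the part above `M²`
  have hr1 : 1 ≤ K ^ 5 := Nat.one_le_pow _ _ (by omega)
  have hmom : ∀ M' : ℕ, 4 ^ (K ^ 5) * ‖ZZ (cutc af M) φ (2 * K ^ 5) M'‖ ≤ p / 16 := by
    intro M'
    have g1 := hZ M M' (K ^ 5) hKM hr1
    have g2 : L * (M:ℝ) ^ (-(23/50):ℝ) * ((2 * K ^ 5 : ℕ):ℝ) ^ (1/2:ℝ) ≤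
        L * ((K:ℝ) ^ 6) ^ (-(23/50):ℝ) * (2 * (K:ℝ) ^ 5) ^ (1/2:ℝ) := by
      have g3 : (M:ℝ) ^ (-(23/50):ℝ) ≤ ((K:ℝ) ^ 6) ^ (-(23/50):ℝ) :=
        Real.rpow_le_rpow_of_nonpos (by positivity) (by exact_mod_cast hM) (by norm_num)
      push_cast
      gcongr
    have g4 : 4 ^ (K ^ 5) * ‖ZZ (cutc af M) φ (2 * K ^ 5) M'‖ ≤ 2 * (Real.exp (-1)) ^ (2 * K ^ 5) := by
      calc (4:ℝ) ^ (K ^ 5) * ‖ZZ (cutc af M) φ (2 * K ^ 5) M'‖ ≤
          4 ^ (K ^ 5) * (2 * (L * (M:ℝ) ^ (-(23/50):ℝ) * ((2 * K ^ 5 : ℕ):ℝ) ^ (1/2:ℝ)) ^ (2 * K ^ 5)) := by gcongr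
        _ = 2 * (2 * (L * (M:ℝ) ^ (-(23/50):ℝ) * ((2 * K ^ 5 : ℕ):ℝ) ^ (1/2:ℝ))) ^ (2 * K ^ 5) := by
            rw [mul_pow 2 (L * _ * _), pow_mul 2 2 (K ^ 5)]; norm_num; ring
        _ ≤ 2 * (Real.exp (-1)) ^ (2 * K ^ 5) := by
            apply mul_le_mul_of_nonneg_left _ (by norm_num)
            apply pow_le_pow_left₀ (by positivity)
            refine le_trans ?_ h2
            linarith
    refine g4.trans ?_
    have g5 : (Real.exp (-1)) ^ (2 * K ^ 5) = Real.exp (-(2 * (K:ℝ) ^ 5)) := by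
      rw [← Real.exp_nat_mul]; congr 1; push_cast; ring
    have g6 : 2 * Real.exp (-(2 * (K:ℝ) ^ 5)) = Real.exp (Real.log 32 - 2 * (K:ℝ) ^ 5) / 16 := by
      rw [Real.exp_sub, Real.exp_log (by norm_num), Real.exp_neg]
      ring
    rw [g5, g6]
    apply div_le_div_of_nonneg_right _ (by norm_num)
    rw [hp]
    apply Real.exp_le_exp.mpr
    have g7 : Real.log 32 ≤ 4 := by
      have : Real.log 32 = 5 * Real.log 2 := by
        rw [show (32:ℝ) = 2 ^ 5 by norm_num, Real.log_pow]; norm_num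
      rw [this]
      have := Real.log_two_lt_d9
      linarith
    have g8 : C * (K:ℝ) ^ 4 * (Real.log K) ^ 3 ≤ (K:ℝ) ^ 5 := by
      calc C * (K:ℝ) ^ 4 * (Real.log K) ^ 3 = (K:ℝ) ^ 4 * (C * (Real.log K) ^ 3) := by ring
        _ ≤ (K:ℝ) ^ 4 * K := mul_le_mul_of_nonneg_left h3 (by positivity)
        _ = _ := by ring
    have g9 : (4:ℝ) ≤ (K:ℝ) ^ 5 := by
      calc (4:ℝ) ≤ K := hKr
        _ = (K:ℝ) ^ 1 := (pow_one _).symm
        _ ≤ (K:ℝ) ^ 5 := pow_le_pow_right₀ (by linarith) (by norm_num)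
    linarith
  -- choice of the large degree
  obtain ⟨M', hM'1, hM'2⟩ := ((happ (p / 32) (by positivity)).and (eventually_ge_atTop M)).exists
  have hcutm : Tendsto (rm (fun n : ℕ => (U (cutc af M) φ (X + n * τ) M') ^ (2 * K ^ 5))) atTop
      (𝓝 (ZZ (cutc af M) φ (2 * K ^ 5) M').re) := by
    have := GG_mean hτ (cutc af M) φ X 0 (2 * K ^ 5) M'
    rw [GG_zero] at this
    refine this.congr fun N => ?_
    simp only [add_zero]
  have hre : (ZZ (cutc af M) φ (2 * K ^ 5) M').re < ‖ZZ (cutc af M) φ (2 * K ^ 5) M'‖ + p / 16 / 4 ^ (K ^ 5) :=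
    lt_of_le_of_lt (Complex.re_le_norm _) (lt_add_of_pos_right _ (by positivity))
  have hfin : ∀ᶠ N : ℕ in atTop, (1 / 2) * p * ((K:ℝ) - 1 + T) ^ (2 * r) ≤
      rm (fun n : ℕ => (U af φ (X + n * τ) M + T) ^ (2 * r)) N := by
    filter_upwards [htail K h1, hM'1, hcutm.eventually (gt_mem_nhds hre), eventually_ge_atTop 1] with N t1 t2 t3 t4
    have hN0 : (0:ℝ) < N := by exact_mod_cast t4
    set A := (Finset.range N).filter (fun n : ℕ => (K:ℝ) < E (X + n * τ)) with hA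
    set B1 := (Finset.range N).filter (fun n : ℕ => 1 / 2 < |E (X + n * τ) - U af φ (X + n * τ) M'|) with hB1
    set B2 := (Finset.range N).filter (fun n : ℕ => 1 / 2 < |U (cutc af M) φ (X + n * τ) M'|) with hB2
    set G := (Finset.range N).filter (fun n : ℕ => (K:ℝ) - 1 ≤ U af φ (X + n * τ) M) with hG
    have s1 : (B1.card : ℝ) ≤ p / 8 * N := by
      have u1 : (B1.card : ℝ) * (1 / 4) ≤ ∑ n ∈ Finset.range N, (E (X + n * τ) - U af φ (X + n * τ) M') ^ 2 := by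
        calc (B1.card : ℝ) * (1 / 4) = ∑ n ∈ B1, (1 / 4 : ℝ) := by rw [Finset.sum_const, nsmul_eq_mul]
          _ ≤ ∑ n ∈ B1, (E (X + n * τ) - U af φ (X + n * τ) M') ^ 2 := by
              apply Finset.sum_le_sum
              intro n hn
              have := (Finset.mem_filter.mp hn).2
              rw [← sq_abs]
              nlinarith
          _ ≤ _ := Finset.sum_le_sum_of_subset_of_nonneg (Finset.filter_subset _ _) fun _ _ _ => sq_nonneg _
      linarith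
    have s2 : (B2.card : ℝ) ≤ p / 8 * N := by
      have u1 : (B2.card : ℝ) ≤ 4 ^ (K ^ 5) * ∑ n ∈ Finset.range N, (U (cutc af M) φ (X + n * τ) M') ^ (2 * K ^ 5) := by
        rw [Finset.mul_sum]
        calc (B2.card : ℝ) = ∑ n ∈ B2, (1:ℝ) := by rw [Finset.sum_const, nsmul_eq_mul, mul_one]
          _ ≤ ∑ n ∈ B2, 4 ^ (K ^ 5) * (U (cutc af M) φ (X + n * τ) M') ^ (2 * K ^ 5) := by
              apply Finset.sum_le_sum
              intro n hn
              have hh := (Finset.mem_filter.mp hn).2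
              have v1 : (4:ℝ) ^ (K ^ 5) * (U (cutc af M) φ (X + n * τ) M') ^ (2 * K ^ 5) =
                  (2 * |U (cutc af M) φ (X + n * τ) M'|) ^ (2 * K ^ 5) := by
                rw [mul_pow, (even_two_mul (K ^ 5)).pow_abs, pow_mul 2 2]; norm_num
              rw [v1]
              exact one_le_pow₀ (by linarith)
          _ ≤ _ := Finset.sum_le_sum_of_subset_of_nonneg (Finset.filter_subset _ _) fun _ _ _ =>
              mul_nonneg (by positivity) ((even_two_mul _).pow_nonneg _)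
      have u2 : ∑ n ∈ Finset.range N, (U (cutc af M) φ (X + n * τ) M') ^ (2 * K ^ 5) ≤
          (‖ZZ (cutc af M) φ (2 * K ^ 5) M'‖ + p / 16 / 4 ^ (K ^ 5)) * N := by
        unfold rm at t3
        rw [div_lt_iff₀ hN0] at t3
        exact t3.le
      calc (B2.card : ℝ) ≤ 4 ^ (K ^ 5) * ((‖ZZ (cutc af M) φ (2 * K ^ 5) M'‖ + p / 16 / 4 ^ (K ^ 5)) * N) :=
            u1.trans (mul_le_mul_of_nonneg_left u2 (by positivity))
        _ = (4 ^ (K ^ 5) * ‖ZZ (cutc af M) φ (2 * K ^ 5) M'‖ + p / 16) * N := by field_simp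
        _ ≤ (p / 16 + p / 16) * N := by
            apply mul_le_mul_of_nonneg_right _ hN0.le
            linarith [hmom M']
        _ = _ := by ring
    have s3 : A ⊆ G ∪ (B1 ∪ B2) := by
      intro n hn
      rw [hA, Finset.mem_filter] at hn
      rw [Finset.mem_union, Finset.mem_union, hG, hB1, hB2, Finset.mem_filter, Finset.mem_filter, Finset.mem_filter]
      by_cases v1 : 1 / 2 < |E (X + n * τ) - U af φ (X + n * τ) M'|
      · exact Or.inr (Or.inl ⟨hn.1, v1⟩)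
      by_cases v2 : 1 / 2 < |U (cutc af M) φ (X + n * τ) M'|
      · exact Or.inr (Or.inr ⟨hn.1, v2⟩)
      refine Or.inl ⟨hn.1, ?_⟩
      push Not at v1 v2
      rw [U_cut hM'2] at v2
      have v3 := (abs_le.mp v1).2
      have v4 := (abs_le.mp v2).2
      linarith [hn.2]
    have s4 : (A.card : ℝ) ≤ G.card + (B1.card + B2.card) := by
      have v1 := (Finset.card_le_card s3).trans (Finset.card_union_le _ _)
      have v2 := Finset.card_union_le B1 B2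
      exact_mod_cast v1.trans (Nat.add_le_add_left v2 _)
    have s5 : (3 / 4) * p * N ≤ G.card := by linarith
    have hKT : 0 ≤ (K:ℝ) - 1 + T := by linarith
    have s6 : (G.card : ℝ) * ((K:ℝ) - 1 + T) ^ (2 * r) ≤ ∑ n ∈ Finset.range N, (U af φ (X + n * τ) M + T) ^ (2 * r) := by
      calc (G.card : ℝ) * ((K:ℝ) - 1 + T) ^ (2 * r) = ∑ n ∈ G, ((K:ℝ) - 1 + T) ^ (2 * r) := by
            rw [Finset.sum_const, nsmul_eq_mul]
        _ ≤ ∑ n ∈ G, (U af φ (X + n * τ) M + T) ^ (2 * r) := by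
            apply Finset.sum_le_sum
            intro n hn
            have := (Finset.mem_filter.mp hn).2
            exact pow_le_pow_left₀ hKT (by linarith) _
        _ ≤ _ := Finset.sum_le_sum_of_subset_of_nonneg (Finset.filter_subset _ _) fun _ _ _ =>
            (even_two_mul _).pow_nonneg _
    unfold rm
    rw [le_div_iff₀ hN0]
    refine le_trans ?_ s6
    have s7 : 0 ≤ ((K:ℝ) - 1 + T) ^ (2 * r) := by positivity
    calc (1 / 2) * p * ((K:ℝ) - 1 + T) ^ (2 * r) * N = ((1 / 2) * p * N) * ((K:ℝ) - 1 + T) ^ (2 * r) := by ring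
      _ ≤ _ := by
          apply mul_le_mul_of_nonneg_right _ s7
          have : 0 < p * N := by positivity
          linarith
  exact ge_of_tendsto (GG_mean hτ af φ X T (2 * r) M) hfin

end Pool.Agent.D0H48.Gr
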