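import Mathlib
import Pool.Agent.D0H48.Gr.Mod

/-!
Blocks: upper bounds and the number of large values.
-/

set_option autoImplicit false

open MeasureTheory Filter Topology Set Real
open scoped ENNReal
open Pool.Agent.H383.AP
open Pool.Agent.H383.Gen (U Bd)
open Pool.Agent.H452R2.Win (Bdw)
open Pool.Agent.Y969.TM
open Pool.Agent.R306.GP

namespace Pool.Agent.D0H48.Gr

variable {E : ℝ → ℝ} {af : ℕ → ℝ} {φ : ℝ} {a b : ℕ → ℝ} {δ c d : ℝ}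

lemma tx : Tendsto (fun j : ℕ => (j:ℝ) + 1) atTop atTop :=
  tendsto_atTop_add_const_right _ _ tendsto_natCast_atTop_atTop

lemma ev_rpow {s : ℝ} (hs : 0 < s) (C : ℝ) : ∀ᶠ j : ℕ in atTop, C ≤ ((j:ℝ) + 1) ^ s :=
  ((tendsto_rpow_atTop hs).comp tx).eventually_ge_atTop C

lemma ev_log {s : ℝ} (hs : 0 < s) {C : ℝ} (hC : 0 < C) : ∀ᶠ j : ℕ in atTop, Real.log ((j:ℝ) + 1) ≤ C * ((j:ℝ) + 1) ^ s := by
  have h1 := (isLittleO_log_rpow_atTop hs).bound hC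
  filter_upwards [tx.eventually h1] with j hj
  rw [Real.norm_eq_abs, Real.norm_eq_abs] at hj
  have h2 : (0:ℝ) < (j:ℝ) + 1 := by positivity
  rw [abs_of_nonneg (Real.rpow_nonneg h2.le s)] at hj
  exact (le_abs_self _).trans hj

/-- small degree -/
def Ms (j : ℕ) : ℕ := (j + 1) ^ 5

/-- power -/
def rr (j : ℕ) : ℕ := j / (400 * (Nat.log 2 j + 1))

lemma Ms_one (j : ℕ) : 1 ≤ Ms j := Nat.one_le_pow _ _ (by omega)

lemma Ms_le {q : ℕ} (hq : 5 ≤ q) (j : ℕ) : Ms j ≤ 2 ^ (q * (j + 1)) := by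
  unfold Ms
  calc (j + 1) ^ 5 ≤ (2 ^ (j + 1)) ^ 5 := Nat.pow_le_pow_left (Nat.lt_two_pow_self).le 5
    _ = 2 ^ (5 * (j + 1)) := by rw [← pow_mul]; congr 1; ring
    _ ≤ _ := Nat.pow_le_pow_right (by norm_num) (Nat.mul_le_mul_right _ hq)

lemma rr_le (j : ℕ) : rr j ≤ j / 4 := by
  unfold rr
  exact Nat.div_le_div_left (by omega) (by norm_num)

lemma rr_mul (j : ℕ) : rr j * (400 * (Nat.log 2 j + 1)) ≤ j := Nat.div_mul_le_self _ _

lemma rr_lt (j : ℕ) : (j:ℝ) < ((rr j : ℝ) + 1) * (400 * (Nat.log 2 j + 1)) := by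
  have h1 : j < 400 * (Nat.log 2 j + 1) * (rr j + 1) := Nat.lt_mul_div_succ j (by positivity)
  have h2 : (j:ℝ) < (400 * (Nat.log 2 j + 1) * (rr j + 1) : ℕ) := by exact_mod_cast h1
  push_cast at h2
  linarith

/-- the logarithm to base two -/
lemma nlog_le {j : ℕ} (hj : 1 ≤ j) : ((Nat.log 2 j : ℕ) : ℝ) ≤ 2 * Real.log j := by
  have hj0 : (0:ℝ) < j := by exact_mod_cast hj
  have h1 : (2:ℝ) ^ (Nat.log 2 j) ≤ j := by exact_mod_cast Nat.pow_log_le_self 2 (by omega)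
  have h2 := Real.log_le_log (by positivity) h1
  rw [Real.log_pow] at h2
  have h3 := Real.log_two_gt_d9
  have h4 : (0:ℝ) ≤ ((Nat.log 2 j : ℕ) : ℝ) := Nat.cast_nonneg _
  nlinarith

lemma rr_small {ε : ℝ} (hε : 0 < ε) : ∀ᶠ j : ℕ in atTop, 2 * (rr j : ℝ) ≤ ε * j := by
  have h1 : Tendsto (fun j : ℕ => Nat.log 2 j) atTop atTop := by
    apply tendsto_atTop.mpr
    intro b
    filter_upwards [eventually_ge_atTop (2 ^ b)] with j hj
    exact Nat.le_log_of_pow_le (by norm_num) hj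
  obtain ⟨k, hk⟩ := exists_nat_ge (1 / ε)
  filter_upwards [h1.eventually_ge_atTop k] with j hj
  have h2 : rr j * (400 * (Nat.log 2 j + 1)) ≤ j := rr_mul j
  have h3 : rr j * (2 * k) ≤ j := by
    refine le_trans (Nat.mul_le_mul_left _ ?_) h2
    omega
  have h4 : (rr j : ℝ) * (2 * k) ≤ j := by exact_mod_cast h3
  rw [div_le_iff₀ hε] at hk
  have h5 : (0:ℝ) ≤ rr j := Nat.cast_nonneg _
  have h6 : (0:ℝ) ≤ j := Nat.cast_nonneg _
  have h7 : 2 * (rr j : ℝ) * 1 ≤ 2 * (rr j : ℝ) * (k * ε) := mul_le_mul_of_nonneg_left hk (by positivity)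
  have h8 := mul_le_mul_of_nonneg_right h4 hε.le
  linarith

/-- the growth condition for the second moment -/
lemma var_cond {T : ℕ → ℝ} {Cs : ℝ} (hCs : 1 ≤ Cs) (hT0 : ∀ j, 0 ≤ T j) (hT : ∀ j : ℕ, T j ≤ ((j:ℝ) + 1) ^ 10) :
    ∀ᶠ j : ℕ in atTop, (T j + Cs * (Ms j:ℝ) ^ 2) ^ (4 * rr j) ≤ (5 / 4) ^ j := by
  filter_upwards [tx.eventually_ge_atTop (1 + Cs), eventually_ge_atTop 1] with j hj hj1
  have h0 : (0:ℝ) < (j:ℝ) + 1 := by positivity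
  have h1 : T j + Cs * (Ms j:ℝ) ^ 2 ≤ ((j:ℝ) + 1) ^ 11 := by
    have h2 : ((Ms j : ℕ):ℝ) ^ 2 = ((j:ℝ) + 1) ^ 10 := by unfold Ms; push_cast; rw [← pow_mul]
    rw [h2]
    have h3 : 0 < ((j:ℝ) + 1) ^ 10 := by positivity
    calc T j + Cs * ((j:ℝ) + 1) ^ 10 ≤ (1 + Cs) * ((j:ℝ) + 1) ^ 10 := by linarith [hT j]
      _ ≤ ((j:ℝ) + 1) * ((j:ℝ) + 1) ^ 10 := mul_le_mul_of_nonneg_right hj h3.le
      _ = _ := by ring
  have h2 : (j:ℝ) + 1 ≤ 2 ^ (Nat.log 2 j + 1) := by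
    have := Nat.lt_pow_succ_log_self (b := 2) (by norm_num) j
    have h3 : j + 1 ≤ 2 ^ (Nat.log 2 j + 1) := this
    exact_mod_cast h3
  have h5 : 0 ≤ T j + Cs * (Ms j:ℝ) ^ 2 := by
    have := hT0 j
    positivity
  have h6 := rr_mul j
  calc (T j + Cs * (Ms j:ℝ) ^ 2) ^ (4 * rr j) ≤ (((j:ℝ) + 1) ^ 11) ^ (4 * rr j) := pow_le_pow_left₀ h5 h1 _
    _ ≤ ((2 ^ (Nat.log 2 j + 1)) ^ 11) ^ (4 * rr j) := by
        apply pow_le_pow_left₀ (by positivity)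
        exact pow_le_pow_left₀ h0.le h2 11
    _ = 2 ^ ((Nat.log 2 j + 1) * 44 * rr j) := by rw [← pow_mul, ← pow_mul]; congr 1; ring
    _ ≤ ((5 / 4) ^ 4) ^ ((Nat.log 2 j + 1) * 44 * rr j) := pow_le_pow_left₀ (by norm_num) (by norm_num) _
    _ = (5 / 4) ^ (4 * ((Nat.log 2 j + 1) * 44 * rr j)) := by rw [← pow_mul]
    _ ≤ (5 / 4) ^ j := pow_le_pow_right₀ (by norm_num) (by nlinarith)

/-- the size of the power -/
lemma rr_big {ε : ℝ} (hε : 0 < ε) (hε1 : ε ≤ 1) : ∀ᶠ j : ℕ in atTop, ((j:ℝ) + 1) ^ (1 - ε / 2) ≤ rr j := by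
  filter_upwards [ev_log (half_pos hε) (by norm_num : (0:ℝ) < 1 / 6400), ev_rpow (half_pos hε) 3200,
    ev_rpow (show (0:ℝ) < 1 - ε / 2 by linarith) 1, eventually_ge_atTop 3] with j h1 h2 h3 hj
  set x : ℝ := (j:ℝ) + 1 with hx
  have hj3 : (3:ℝ) ≤ j := by exact_mod_cast hj
  have hx0 : 0 < x := by linarith
  have hlogx : 1 ≤ Real.log x := by
    have : (4:ℝ) ≤ x := by linarith
    have h4 : Real.log 4 ≤ Real.log x := Real.log_le_log (by norm_num) this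
    have h5 : Real.log 4 = 2 * Real.log 2 := by
      rw [show (4:ℝ) = 2 ^ 2 by norm_num, Real.log_pow]; norm_num
    have := Real.log_two_gt_d9
    linarith
  have h4 : ((Nat.log 2 j : ℕ):ℝ) + 1 ≤ 3 * Real.log x := by
    have h5 := nlog_le (by omega : 1 ≤ j)
    have h6 : Real.log j ≤ Real.log x := Real.log_le_log (by linarith) (by linarith)
    linarith
  have h5 : ((Nat.log 2 j : ℕ):ℝ) + 1 ≤ x ^ (ε / 2) / 1600 := by
    have : 0 < x ^ (ε / 2) := by positivity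
    linarith
  have h6 := rr_lt j
  have h7 : (j:ℝ) ≥ x / 2 := by linarith
  have hr0 : (0:ℝ) ≤ rr j := Nat.cast_nonneg _
  have h8 : x / 2 < ((rr j : ℝ) + 1) * (x ^ (ε / 2) / 4) := by
    calc x / 2 ≤ j := h7
      _ < ((rr j : ℝ) + 1) * (400 * (Nat.log 2 j + 1)) := h6
      _ ≤ ((rr j : ℝ) + 1) * (400 * (x ^ (ε / 2) / 1600)) := by gcongr
      _ = _ := by ring
  have h9 : x = x ^ (1 - ε / 2) * x ^ (ε / 2) := by
    rw [← Real.rpow_add hx0, sub_add_cancel, Real.rpow_one]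
  have h10 : 0 < x ^ (ε / 2) := by positivity
  have h11 : 2 * x ^ (1 - ε / 2) < (rr j : ℝ) + 1 := by
    have : (2 * x ^ (1 - ε / 2)) * (x ^ (ε / 2) / 4) < ((rr j : ℝ) + 1) * (x ^ (ε / 2) / 4) := by
      calc (2 * x ^ (1 - ε / 2)) * (x ^ (ε / 2) / 4) = (x ^ (1 - ε / 2) * x ^ (ε / 2)) / 2 := by ring
        _ = x / 2 := by rw [← h9]
        _ < _ := h8
    exact lt_of_mul_lt_mul_right this (by positivity)
  linarith

/-- upper bounds on blocks -/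
theorem blk_upper (hm : Mod E af φ) (h : Sq a b δ) (hc : 0 < c) (hcd : c ≤ d) {ε : ℝ} (hε : 0 < ε) {q : ℕ} (hq : 400 ≤ q) :
    ∀ᵐ y ∂(volume.restrict (Icc c d)), ∀ᶠ j : ℕ in atTop, ∀ n ∈ Finset.Ico (2 ^ j) (2 ^ (j + 1)),
      |U af φ (pt a b n y) (Ms j)| ≤ ((j:ℝ) + 1) ^ (1/4 + ε) ∧ |E (pt a b n y) - U af φ (pt a b n y) (Ms j)| ≤ 2 := by
  obtain ⟨Cs, hCs, hAA⟩ := AA_le hm.ctx.bd
  -- the part of small degree
  set ε' : ℝ := min (ε / 2) (1 / 8) with hε'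
  have he0 : 0 < ε' := lt_min (by linarith) (by norm_num)
  have he1 : ε' ≤ ε / 2 := min_le_left _ _
  have he2 : ε' ≤ 1 / 8 := min_le_right _ _
  set p : ℝ := 1 / (3/4 - ε') with hp
  have hden : 0 < 3/4 - ε' := by linarith
  have hp1 : 1 ≤ p := by rw [hp, le_div_iff₀ hden]; linarith
  have hp2 : p ≤ 2 := by rw [hp, div_le_iff₀ hden]; linarith
  have hpk : 1 < (3/4 - ε'/2) * p := by
    rw [hp, mul_one_div, lt_div_iff₀ hden]; linarith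
  have hpi : 1 - 1/p = 1/4 + ε' := by
    rw [hp, one_div_one_div]; ring
  obtain ⟨C1, hC1, hb1⟩ := hm.bdw (ε'/2) (by linarith)
  obtain ⟨L1, hL1, hsup1⟩ := ae_sup (q := q) h hc hcd φ (κ := 3/4 - ε'/2) (p := p) (by linarith) hp1 hp2 hpk hCs
  have s1 := hsup1 (fun _ => af) (fun _ => C1) (fun j => ((j:ℝ) + 1) ^ (1/4 + ε)) Ms (fun _ => hC1)
    (fun _ m hm' => by
      have := hb1 m hm'
      refine this.trans (le_of_eq ?_)
      congr 2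
      ring)
    (fun j => hAA _) Ms_one (Ms_le (by omega)) (fun j => Real.one_le_rpow (by
      have : (0:ℝ) ≤ j := Nat.cast_nonneg j
      linarith) (by linarith)) (by
      filter_upwards [ev_rpow (show 0 < ε - ε' by linarith) (64 * (L1 * C1))] with j hj
      rw [hpi]
      have hx0 : (0:ℝ) < (j:ℝ) + 1 := by positivity
      have h1 : (((2 * (j / 4) : ℕ) : ℝ)) ^ (1/4 + ε') ≤ ((j:ℝ) + 1) ^ (1/4 + ε') := by
        apply Real.rpow_le_rpow (Nat.cast_nonneg _) _ (by linarith)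
        have : 2 * (j / 4) ≤ j + 1 := by omega
        exact_mod_cast this
      have h2 : ((j:ℝ) + 1) ^ (1/4 + ε) = ((j:ℝ) + 1) ^ (ε - ε') * ((j:ℝ) + 1) ^ (1/4 + ε') := by
        rw [← Real.rpow_add hx0]; congr 1; ring
      have h3 : 0 < ((j:ℝ) + 1) ^ (1/4 + ε') := by positivity
      rw [h2]
      calc L1 * C1 * (((2 * (j / 4) : ℕ) : ℝ)) ^ (1/4 + ε') ≤ L1 * C1 * ((j:ℝ) + 1) ^ (1/4 + ε') := by gcongr
        _ ≤ (((j:ℝ) + 1) ^ (ε - ε') / 64) * ((j:ℝ) + 1) ^ (1/4 + ε') := by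
            apply mul_le_mul_of_nonneg_right _ h3.le
            linarith
        _ = _ := by ring)
  -- the middle part
  obtain ⟨C2, hC2, hb2⟩ := hm.ctx.bd
  have hb2' : ∀ m : ℕ, 1 ≤ m → |af m| ≤ C2 * (m:ℝ) ^ (-(37/50):ℝ) := by
    intro m hm
    have hm0 : (0:ℝ) < m := by exact_mod_cast hm
    have h1 := hb2 m hm
    have h2 : (√(m:ℝ)) ^ (-(37/25):ℝ) = (m:ℝ) ^ (-(37/50):ℝ) := by
      rw [Real.sqrt_eq_rpow, ← Real.rpow_mul hm0.le]; norm_num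
    rwa [h2] at h1
  obtain ⟨L2, hL2, hsup2⟩ := ae_sup (q := q) h hc hcd φ (κ := 51/100) (p := 2) (by norm_num) (by norm_num) le_rfl (by norm_num) hCs
  have hMs0 : ∀ j, (0:ℝ) < Ms j := fun j => by exact_mod_cast Ms_one j
  have s2 := hsup2 (fun j => cutc af (Ms j)) (fun j => C2 * (Ms j:ℝ) ^ (-(2 * (37/50 - 51/100)):ℝ)) (fun _ => 1)
    (fun j => 2 ^ (q * (j + 1))) (fun j => by have := hMs0 j; positivity) (fun j => cut_bd hC2.le hb2' (by norm_num) (Ms_one j))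
    (fun j => (AA_cut _ _).trans (hAA _)) (fun j => Nat.one_le_two_pow) (fun j => le_rfl) (fun _ => le_rfl) (by
      filter_upwards [ev_rpow (show (0:ℝ) < 9/5 by norm_num) (64 * (L2 * C2))] with j hj
      have hx0 : (0:ℝ) < (j:ℝ) + 1 := by positivity
      have h1 : (((2 * (j / 4) : ℕ) : ℝ)) ^ (1 - 1/2:ℝ) ≤ ((j:ℝ) + 1) ^ (1/2:ℝ) := by
        rw [show (1 - 1/2:ℝ) = 1/2 by norm_num]
        apply Real.rpow_le_rpow (Nat.cast_nonneg _) _ (by norm_num)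
        have : 2 * (j / 4) ≤ j + 1 := by omega
        exact_mod_cast this
      have h2 : (Ms j:ℝ) ^ (-(2 * (37/50 - 51/100)):ℝ) = ((j:ℝ) + 1) ^ (-(23/10):ℝ) := by
        unfold Ms
        push_cast
        rw [← Real.rpow_natCast, ← Real.rpow_mul hx0.le]
        norm_num
      rw [h2]
      have h3 : ((j:ℝ) + 1) ^ (-(23/10):ℝ) * ((j:ℝ) + 1) ^ (1/2:ℝ) = (((j:ℝ) + 1) ^ (9/5:ℝ))⁻¹ := by
        rw [← Real.rpow_add hx0, ← Real.rpow_neg hx0.le]; norm_num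
      calc L2 * (C2 * ((j:ℝ) + 1) ^ (-(23/10):ℝ)) * (((2 * (j / 4) : ℕ) : ℝ)) ^ (1 - 1/2:ℝ)
          ≤ L2 * (C2 * ((j:ℝ) + 1) ^ (-(23/10):ℝ)) * ((j:ℝ) + 1) ^ (1/2:ℝ) := by gcongr
        _ = (L2 * C2) * (((j:ℝ) + 1) ^ (-(23/10):ℝ) * ((j:ℝ) + 1) ^ (1/2:ℝ)) := by ring
        _ = (L2 * C2) * (((j:ℝ) + 1) ^ (9/5:ℝ))⁻¹ := by rw [h3]
        _ ≤ 1 / 64 := by
            rw [← div_eq_mul_inv, div_le_iff₀ (by positivity)]
            linarith)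
  filter_upwards [s1, s2, ae_errB hm.ctx h hc hcd hq] with y h1 h2 h3
  filter_upwards [h1, h2, h3] with j g1 g2 g3 n hn
  refine ⟨g1 n hn, ?_⟩
  have k2 := g2 n hn
  have k3 := g3 n hn
  rw [U_cut (Ms_le (by omega) j)] at k2
  have e : E (pt a b n y) - U af φ (pt a b n y) (Ms j) = (E (pt a b n y) - U af φ (pt a b n y) (2 ^ (q * (j + 1)))) +
      (U af φ (pt a b n y) (2 ^ (q * (j + 1))) - U af φ (pt a b n y) (Ms j)) := by ring
  rw [e]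
  refine (abs_add_le _ _).trans ?_
  linarith

end Pool.Agent.D0H48.Gr
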