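import Mathlib
import Pool.Agent.D0H48.Gr.Low

/-!
Blocks: the number of large values.
-/

set_option autoImplicit false

open MeasureTheory Filter Topology Set Real
open scoped ENNReal
open Pool.Agent.H383.AP
open Pool.Agent.H383.Gen (U Bd)
open Pool.Agent.H452R2.Win (Bdw)
open Pool.Agent.Y969.TM
open Pool.Agent.R306.GP

namespace Pool.Agent.D0H48.Gr

variable {E : ℝ → ℝ} {af : ℕ → ℝ} {φ : ℝ} {a b : ℕ → ℝ} {δ c d : ℝ}

/-- the level -/
noncomputable def kk (ε : ℝ) (j : ℕ) : ℝ := ((j:ℝ) + 1) ^ (1/4 - ε) + 2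

/-- the bound -/
noncomputable def TTj (ε : ℝ) (j : ℕ) : ℝ := ((j:ℝ) + 1) ^ (1/4 + ε)

/-- the integral level -/
noncomputable def KK (ε : ℝ) (j : ℕ) : ℕ := ⌈2 * kk ε j⌉₊ + 1

lemma kk_facts {ε : ℝ} (hε : 0 < ε) (hε1 : ε ≤ 1/8) (K1 : ℕ) : ∀ᶠ j : ℕ in atTop,
    kk ε j ≤ TTj ε j ∧ 2 * kk ε j ≤ (KK ε j : ℝ) - 1 ∧ (KK ε j : ℝ) ≤ 8 * ((j:ℝ) + 1) ^ (1/4 - ε) ∧
      (KK ε j : ℝ) ≤ (j:ℝ) + 1 ∧ (KK ε j) ^ 6 ≤ Ms j ∧ K1 ≤ KK ε j := by
  filter_upwards [ev_rpow (show (0:ℝ) < 1/4 - ε by linarith) 1, ev_rpow (show (0:ℝ) < 2 * ε by linarith) 3,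
    ev_rpow (show (0:ℝ) < 1/2 by norm_num) 8, ev_rpow (show (0:ℝ) < 1/4 - ε by linarith) K1] with j h1 h2 h3 h4
  set x : ℝ := (j:ℝ) + 1 with hx
  have hj0 : (0:ℝ) ≤ j := Nat.cast_nonneg j
  have hx1 : 1 ≤ x := by linarith
  have hx0 : 0 < x := by linarith
  have hk0 : 0 ≤ 2 * kk ε j := by unfold kk; positivity
  have e1 : (KK ε j : ℝ) - 1 = (⌈2 * kk ε j⌉₊ : ℝ) := by unfold KK; push_cast; ring
  have g2 : 2 * kk ε j ≤ (KK ε j : ℝ) - 1 := by rw [e1]; exact Nat.le_ceil _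
  have g3 : (KK ε j : ℝ) ≤ 8 * x ^ (1/4 - ε) := by
    have := (Nat.ceil_lt_add_one hk0).le
    have h5 : (KK ε j : ℝ) ≤ 2 * kk ε j + 2 := by linarith
    unfold kk at h5
    linarith
  have g4 : x ^ (1/4 - ε) ≤ x ^ (1/4:ℝ) := Real.rpow_le_rpow_of_exponent_le hx1 (by linarith)
  have g5 : (KK ε j : ℝ) ≤ x ^ (3/4:ℝ) := by
    have h5 : x ^ (3/4:ℝ) = x ^ (1/2:ℝ) * x ^ (1/4:ℝ) := by rw [← Real.rpow_add hx0]; norm_num
    have h6 : 0 < x ^ (1/4:ℝ) := by positivity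
    rw [h5]
    nlinarith
  have g6 : (KK ε j : ℝ) ≤ x := g5.trans (by
    calc x ^ (3/4:ℝ) ≤ x ^ (1:ℝ) := Real.rpow_le_rpow_of_exponent_le hx1 (by norm_num)
      _ = x := Real.rpow_one x)
  refine ⟨?_, g2, g3, g6, ?_, ?_⟩
  · unfold kk TTj
    have h5 : x ^ (1/4 + ε) = x ^ (2 * ε) * x ^ (1/4 - ε) := by rw [← Real.rpow_add hx0]; congr 1; ring
    rw [← hx, h5]
    nlinarith
  · have h5 : ((KK ε j : ℝ)) ^ 6 ≤ x ^ 5 := by
      calc ((KK ε j : ℝ)) ^ 6 ≤ (x ^ (3/4:ℝ)) ^ 6 := pow_le_pow_left₀ (Nat.cast_nonneg _) g5 6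
        _ = x ^ (9/2:ℝ) := by rw [← Real.rpow_natCast, ← Real.rpow_mul hx0.le]; norm_num
        _ ≤ x ^ (5:ℝ) := Real.rpow_le_rpow_of_exponent_le hx1 (by norm_num)
        _ = x ^ 5 := by rw [← Real.rpow_natCast]; norm_num
    unfold Ms
    have h6 : (((KK ε j) ^ 6 : ℕ) : ℝ) ≤ (((j + 1) ^ 5 : ℕ) : ℝ) := by push_cast; exact h5
    exact_mod_cast h6
  · have h5 : (K1:ℝ) ≤ KK ε j := by
      have : (K1:ℝ) ≤ kk ε j := by unfold kk; rw [← hx]; linarith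
      have h6 : 0 ≤ kk ε j := by linarith
      linarith
    exact_mod_cast h5

/-- comparison of the two powers -/
lemma key_ineq {ε C : ℝ} (hε : 0 < ε) (hε1 : ε ≤ 1/8) (hC : 0 < C) : ∀ᶠ j : ℕ in atTop,
    3 * (kk ε j + TTj ε j) ^ (2 * rr j) ≤
      (1 / 2) * Real.exp (-(C * (KK ε j:ℝ) ^ 4 * (Real.log (KK ε j)) ^ 3)) * ((KK ε j:ℝ) - 1 + TTj ε j) ^ (2 * rr j) := by
  filter_upwards [kk_facts hε hε1 2, rr_big hε (by linarith), ev_log (show (0:ℝ) < ε / 3 by linarith) one_pos,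
    ev_rpow (half_pos hε) (3 / 2 * (2 + C * 4096)), ev_rpow (show (0:ℝ) < 1 - 3 * ε by linarith) 1] with j hk h1 h2 h3 h4
  obtain ⟨k1, k2, k3, k4, k5, k6⟩ := hk
  set x : ℝ := (j:ℝ) + 1 with hx
  have hj0 : (0:ℝ) ≤ j := Nat.cast_nonneg j
  have hx1 : 1 ≤ x := by linarith
  have hx0 : 0 < x := by linarith
  set k := kk ε j with hkd
  set T := TTj ε j with hTd
  set K := KK ε j with hKd
  have hk0 : 0 < k := by rw [hkd]; unfold kk; positivity
  have hT0 : 0 < T := by rw [hTd]; unfold TTj; positivity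
  have hK2 : (2:ℝ) ≤ K := by exact_mod_cast k6
  have hlogK0 : 0 ≤ Real.log K := Real.log_nonneg (by linarith)
  have hlogK : Real.log K ≤ x ^ (ε / 3) := by
    have : Real.log K ≤ Real.log x := Real.log_le_log (by linarith) k4
    linarith
  have hlog3 : (Real.log K) ^ 3 ≤ x ^ ε := by
    calc (Real.log K) ^ 3 ≤ (x ^ (ε / 3)) ^ 3 := pow_le_pow_left₀ hlogK0 hlogK 3
      _ = x ^ ε := by rw [← Real.rpow_natCast, ← Real.rpow_mul hx0.le]; congr 1; push_cast; ring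
  have hK4 : (K:ℝ) ^ 4 ≤ 4096 * x ^ (1 - 4 * ε) := by
    calc (K:ℝ) ^ 4 ≤ (8 * x ^ (1/4 - ε)) ^ 4 := pow_le_pow_left₀ (Nat.cast_nonneg _) k3 4
      _ = 4096 * x ^ (1 - 4 * ε) := by
          rw [mul_pow, ← Real.rpow_natCast (x ^ (1/4 - ε)), ← Real.rpow_mul hx0.le]
          norm_num
          congr 1
          ring
  have hR : C * (K:ℝ) ^ 4 * (Real.log K) ^ 3 ≤ C * 4096 * x ^ (1 - 3 * ε) := by
    calc C * (K:ℝ) ^ 4 * (Real.log K) ^ 3 ≤ C * (4096 * x ^ (1 - 4 * ε)) * x ^ ε := by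
          gcongr
      _ = C * 4096 * (x ^ (1 - 4 * ε) * x ^ ε) := by ring
      _ = _ := by rw [← Real.rpow_add hx0]; congr 2; ring
  -- the logarithm of the ratio
  have hratio : k / (3 * T) ≤ Real.log ((2 * k + T) / (k + T)) := by
    have g1 : (0:ℝ) < (2 * k + T) / (k + T) := by positivity
    have g2 := Real.one_sub_inv_le_log_of_pos g1
    refine le_trans ?_ g2
    rw [inv_div]
    have g3 : 1 - (k + T) / (2 * k + T) = k / (2 * k + T) := by field_simp; ring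
    rw [g3]
    apply div_le_div_of_nonneg_left hk0.le (by positivity)
    linarith
  have hkT : x ^ (-(2 * ε)) ≤ k / T := by
    rw [le_div_iff₀ hT0]
    have : x ^ (-(2 * ε)) * T = x ^ (1/4 - ε) := by
      rw [hTd]; unfold TTj
      rw [← hx, ← Real.rpow_add hx0]; congr 1; ring
    rw [this, hkd]
    unfold kk
    linarith
  have hmain : 2 + C * (K:ℝ) ^ 4 * (Real.log K) ^ 3 ≤ (2 * rr j : ℕ) * Real.log ((2 * k + T) / (k + T)) := by
    have g1 : (2 / 3) * (x ^ (1 - ε / 2) * x ^ (-(2 * ε))) ≤ (2 * rr j : ℕ) * (k / (3 * T)) := by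
      have g2 : k / (3 * T) = (1 / 3) * (k / T) := by field_simp
      rw [g2]
      push_cast
      have g3 : x ^ (1 - ε / 2) * x ^ (-(2 * ε)) ≤ rr j * (k / T) := mul_le_mul h1 hkT (by positivity) (Nat.cast_nonneg _)
      linarith
    have g4 : x ^ (1 - ε / 2) * x ^ (-(2 * ε)) = x ^ (ε / 2) * x ^ (1 - 3 * ε) := by
      rw [← Real.rpow_add hx0, ← Real.rpow_add hx0]; congr 1; ring
    rw [g4] at g1
    have g5 : (2 * rr j : ℕ) * (k / (3 * T)) ≤ (2 * rr j : ℕ) * Real.log ((2 * k + T) / (k + T)) :=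
      mul_le_mul_of_nonneg_left hratio (Nat.cast_nonneg _)
    have g6 : 2 + C * 4096 * x ^ (1 - 3 * ε) ≤ (2 / 3) * (x ^ (ε / 2) * x ^ (1 - 3 * ε)) := by
      have g7 : (2 + C * 4096) * x ^ (1 - 3 * ε) ≤ (2 / 3 * x ^ (ε / 2)) * x ^ (1 - 3 * ε) := by
        apply mul_le_mul_of_nonneg_right _ (by positivity)
        linarith
      nlinarith
    linarith
  -- exponentiate
  have hpow : Real.exp (2 + C * (K:ℝ) ^ 4 * (Real.log K) ^ 3) * (k + T) ^ (2 * rr j) ≤ (2 * k + T) ^ (2 * rr j) := by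
    have g1 : Real.exp (2 + C * (K:ℝ) ^ 4 * (Real.log K) ^ 3) ≤ ((2 * k + T) / (k + T)) ^ (2 * rr j) := by
      have g2 : (0:ℝ) < (2 * k + T) / (k + T) := by positivity
      calc Real.exp (2 + C * (K:ℝ) ^ 4 * (Real.log K) ^ 3) ≤ Real.exp ((2 * rr j : ℕ) * Real.log ((2 * k + T) / (k + T))) :=
            Real.exp_le_exp.mpr hmain
        _ = _ := by rw [Real.exp_nat_mul, Real.exp_log g2]
    calc _ ≤ ((2 * k + T) / (k + T)) ^ (2 * rr j) * (k + T) ^ (2 * rr j) :=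
          mul_le_mul_of_nonneg_right g1 (by positivity)
      _ = _ := by
          rw [← mul_pow, div_mul_cancel₀]
          positivity
  have he2 : (6:ℝ) ≤ Real.exp 2 := by
    have := Real.exp_one_gt_d9
    have g1 : Real.exp 2 = Real.exp 1 * Real.exp 1 := by rw [← Real.exp_add]; norm_num
    rw [g1]
    nlinarith
  have hEp : 0 < Real.exp (C * (K:ℝ) ^ 4 * (Real.log K) ^ 3) := Real.exp_pos _
  rw [Real.exp_add] at hpow
  have hfin : 6 * (k + T) ^ (2 * rr j) ≤ Real.exp (-(C * (K:ℝ) ^ 4 * (Real.log K) ^ 3)) * (2 * k + T) ^ (2 * rr j) := by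
    rw [Real.exp_neg, inv_mul_eq_div, le_div_iff₀ hEp]
    have g1 : 0 ≤ (k + T) ^ (2 * rr j) := by positivity
    calc 6 * (k + T) ^ (2 * rr j) * Real.exp (C * (K:ℝ) ^ 4 * (Real.log K) ^ 3)
        = 6 * (Real.exp (C * (K:ℝ) ^ 4 * (Real.log K) ^ 3) * (k + T) ^ (2 * rr j)) := by ring
      _ ≤ Real.exp 2 * (Real.exp (C * (K:ℝ) ^ 4 * (Real.log K) ^ 3) * (k + T) ^ (2 * rr j)) :=
          mul_le_mul_of_nonneg_right he2 (by positivity)
      _ = Real.exp 2 * Real.exp (C * (K:ℝ) ^ 4 * (Real.log K) ^ 3) * (k + T) ^ (2 * rr j) := by ring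
      _ ≤ _ := hpow
  have hlast : (2 * k + T) ^ (2 * rr j) ≤ ((K:ℝ) - 1 + T) ^ (2 * rr j) :=
    pow_le_pow_left₀ (by positivity) (by linarith) _
  have hp0 : 0 < Real.exp (-(C * (K:ℝ) ^ 4 * (Real.log K) ^ 3)) := Real.exp_pos _
  calc 3 * (k + T) ^ (2 * rr j) = (1 / 2) * (6 * (k + T) ^ (2 * rr j)) := by ring
    _ ≤ (1 / 2) * (Real.exp (-(C * (K:ℝ) ^ 4 * (Real.log K) ^ 3)) * (2 * k + T) ^ (2 * rr j)) := by linarith
    _ ≤ (1 / 2) * (Real.exp (-(C * (K:ℝ) ^ 4 * (Real.log K) ^ 3)) * ((K:ℝ) - 1 + T) ^ (2 * rr j)) := by gcongr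
    _ = _ := by ring

open Classical in
/-- the number of large values on blocks -/
theorem blk_lower (hm : Mod E af φ) (h : Sq a b δ) (hc : 0 < c) (hcd : c ≤ d) {ε : ℝ} (hε : 0 < ε) (hε1 : ε ≤ 1/8) :
    ∀ᵐ y ∂(volume.restrict (Icc c d)), ∀ᶠ j : ℕ in atTop,
      (∀ n ∈ Finset.Ico (2 ^ j) (2 ^ (j + 1)), |E (pt a b n y)| ≤ ((j:ℝ) + 1) ^ (1/4 + ε) + 2) ∧
      (2:ℝ) ^ ((1 - ε) * j) ≤ (((Finset.Ico (2 ^ j) (2 ^ (j + 1))).filter (fun n : ℕ =>
        ((j:ℝ) + 1) ^ (1/4 - ε) ≤ E (pt a b n y))).card : ℝ) := by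
  obtain ⟨q, hq⟩ : ∃ q : ℕ, 400 ≤ q := ⟨400, le_rfl⟩
  obtain ⟨Cs, hCs, hAA⟩ := AA_le hm.ctx.bd
  obtain ⟨C, hC, K1, hmod⟩ := model_low hm
  have hT0 : ∀ j, 0 ≤ TTj ε j := fun j => by unfold TTj; positivity
  have hT10 : ∀ j : ℕ, TTj ε j ≤ ((j:ℝ) + 1) ^ 10 := by
    intro j
    unfold TTj
    have hx1 : (1:ℝ) ≤ (j:ℝ) + 1 := by
      have : (0:ℝ) ≤ j := Nat.cast_nonneg j
      linarith
    calc ((j:ℝ) + 1) ^ (1/4 + ε) ≤ ((j:ℝ) + 1) ^ (10:ℝ) := Real.rpow_le_rpow_of_exponent_le hx1 (by linarith)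
      _ = _ := by rw [← Real.rpow_natCast]; norm_num
  have s1 := ae_shift (q := q) (T := TTj ε) (M := Ms) (r := rr) h hc hcd hCs hAA φ hT0 Ms_one (Ms_le (by omega)) rr_le
    (var_cond hCs hT0 hT10)
  filter_upwards [s1, blk_upper hm h hc hcd hε hq] with y h1 h2
  filter_upwards [h1, h2, kk_facts hε hε1 (max K1 2), key_ineq hε hε1 hC, rr_small hε, eventually_ge_atTop 1] with j g1 g2 g3 g4 g5 g6
  obtain ⟨k1, k2, k3, k4, k5, k6⟩ := g3
  constructor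
  · intro n hn
    obtain ⟨u1, u2⟩ := g2 n hn
    have e : E (pt a b n y) = (E (pt a b n y) - U af φ (pt a b n y) (Ms j)) + U af φ (pt a b n y) (Ms j) := by ring
    rw [e]
    refine (abs_add_le _ _).trans ?_
    linarith
  set B := Finset.Ico (2 ^ j) (2 ^ (j + 1)) with hB
  set T := TTj ε j with hTd
  set k := kk ε j with hkd
  set r := rr j with hrd
  have hT1 : 1 ≤ T := by
    rw [hTd]; unfold TTj
    apply Real.one_le_rpow _ (by linarith)
    have : (0:ℝ) ≤ j := Nat.cast_nonneg j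
    linarith
  have hk0 : 0 < k := by rw [hkd]; unfold kk; positivity
  have hlow := hmod (KK ε j) (by omega) (Ms j) k5 T r (hT0 j)
  have hNr : ((2 ^ j : ℕ) : ℝ) = 2 ^ j := by push_cast; rfl
  have hN0 : (0:ℝ) < 2 ^ j := by positivity
  -- the sum from below
  have hS1 : (2:ℝ) ^ j * (GG af φ T (2 * r) (Ms j)).re - (7 / 4) ^ j ≤
      ∑ n ∈ B, (U af φ (pt a b n y) (Ms j) + T) ^ (2 * r) := by
    have v1 := (Complex.abs_re_le_norm _).trans g1
    have v2 : (∑ n ∈ B, ((((U af φ (pt a b n y) (Ms j) + T : ℝ)) : ℂ) ^ (2 * r) - GG af φ T (2 * r) (Ms j))).re =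
        ∑ n ∈ B, (U af φ (pt a b n y) (Ms j) + T) ^ (2 * r) - 2 ^ j * (GG af φ T (2 * r) (Ms j)).re := by
      rw [Finset.sum_sub_distrib, Finset.sum_const, hB, card_blk, Complex.sub_re, nsmul_eq_mul]
      congr 1
      · rw [Complex.re_sum]
        apply Finset.sum_congr rfl
        intro n _
        rw [← Complex.ofReal_pow, Complex.ofReal_re]
      · rw [show ((2 ^ j : ℕ) : ℂ) = (((2:ℝ) ^ j : ℝ) : ℂ) by push_cast; rfl, Complex.re_ofReal_mul]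
    rw [v2] at v1
    have := (abs_le.mp v1).1
    linarith
  set H := B.filter (fun n : ℕ => k ≤ U af φ (pt a b n y) (Ms j)) with hH
  have hS2 : ∑ n ∈ B, (U af φ (pt a b n y) (Ms j) + T) ^ (2 * r) ≤
      2 ^ j * (k + T) ^ (2 * r) + H.card * (2 * T) ^ (2 * r) := by
    rw [← Finset.sum_filter_add_sum_filter_not B (fun n : ℕ => k ≤ U af φ (pt a b n y) (Ms j)), add_comm]
    apply add_le_add
    · calc _ ≤ ∑ n ∈ B.filter (fun n : ℕ => ¬ k ≤ U af φ (pt a b n y) (Ms j)), (k + T) ^ (2 * r) := by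
            apply Finset.sum_le_sum
            intro n hn
            rw [Finset.mem_filter] at hn
            have v1 := (abs_le.mp (g2 n hn.1).1).1
            have v2 : -T ≤ U af φ (pt a b n y) (Ms j) := v1
            exact pow_le_pow_left₀ (by linarith) (by linarith [not_le.mp hn.2]) _
        _ ≤ ∑ n ∈ B, (k + T) ^ (2 * r) :=
            Finset.sum_le_sum_of_subset_of_nonneg (Finset.filter_subset _ _) fun _ _ _ => by positivity
        _ = _ := by rw [Finset.sum_const, hB, card_blk, nsmul_eq_mul, hNr]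
    · calc _ ≤ ∑ n ∈ H, (2 * T) ^ (2 * r) := by
            apply Finset.sum_le_sum
            intro n hn
            rw [Finset.mem_filter] at hn
            have v1 := abs_le.mp (g2 n hn.1).1
            have v2 : -T ≤ U af φ (pt a b n y) (Ms j) := v1.1
            have v3 : U af φ (pt a b n y) (Ms j) ≤ T := v1.2
            exact pow_le_pow_left₀ (by linarith) (by linarith) _
        _ = _ := by rw [Finset.sum_const, nsmul_eq_mul]
  have hkT1 : (1:ℝ) ≤ (k + T) ^ (2 * r) := one_le_pow₀ (by linarith)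
  have h74 : (7 / 4 : ℝ) ^ j ≤ 2 ^ j := pow_le_pow_left₀ (by norm_num) (by norm_num) j
  have hHc : (2:ℝ) ^ j * (k + T) ^ (2 * r) ≤ H.card * (2 * T) ^ (2 * r) := by
    have v1 : 3 * (k + T) ^ (2 * r) ≤ (GG af φ T (2 * r) (Ms j)).re := g4.trans hlow
    have v2 := mul_le_mul_of_nonneg_left v1 hN0.le
    have v3 : (2:ℝ) ^ j ≤ 2 ^ j * (k + T) ^ (2 * r) := by nlinarith
    linarith
  have hH2 : (2:ℝ) ^ j ≤ H.card * 2 ^ (2 * r) := by
    have hTp : (0:ℝ) < T ^ (2 * r) := by positivity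
    have v1 : (2:ℝ) ^ j * T ^ (2 * r) ≤ (H.card * 2 ^ (2 * r)) * T ^ (2 * r) := by
      calc (2:ℝ) ^ j * T ^ (2 * r) ≤ 2 ^ j * (k + T) ^ (2 * r) := by
            apply mul_le_mul_of_nonneg_left _ hN0.le
            exact pow_le_pow_left₀ (by linarith) (by linarith) _
        _ ≤ H.card * (2 * T) ^ (2 * r) := hHc
        _ = _ := by rw [mul_pow]; ring
    exact le_of_mul_le_mul_right v1 hTp
  have hsub : H ⊆ B.filter (fun n : ℕ => ((j:ℝ) + 1) ^ (1/4 - ε) ≤ E (pt a b n y)) := by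
    intro n hn
    rw [hH, Finset.mem_filter] at hn
    rw [Finset.mem_filter]
    refine ⟨hn.1, ?_⟩
    have v1 := (abs_le.mp (g2 n hn.1).2).1
    have v2 := hn.2
    rw [hkd] at v2
    unfold kk at v2
    linarith
  have hcard : (H.card : ℝ) ≤ ((B.filter (fun n : ℕ => ((j:ℝ) + 1) ^ (1/4 - ε) ≤ E (pt a b n y))).card : ℝ) := by
    exact_mod_cast Finset.card_le_card hsub
  refine le_trans ?_ hcard
  have v1 : (2:ℝ) ^ ((1 - ε) * j) * 2 ^ (2 * r) ≤ 2 ^ j := by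
    rw [← Real.rpow_natCast 2 (2 * r), ← Real.rpow_natCast 2 j, ← Real.rpow_add (by norm_num)]
    apply Real.rpow_le_rpow_of_exponent_le (by norm_num)
    push_cast
    linarith
  have v2 : (0:ℝ) < 2 ^ (2 * r) := by positivity
  exact le_of_mul_le_mul_right (v1.trans hH2) v2

end Pool.Agent.D0H48.Gr
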