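import Mathlib
import Pool.Agent.D0H48.Gr.Cnt

/-!
The growth law along `b_n α ^ (a_n)`.
-/

set_option autoImplicit false

open MeasureTheory Filter Topology Set Real
open scoped ENNReal
open Pool.Agent.H383.Gen (U Bd)
open Pool.Agent.Y969.TM
open Pool.Agent.R306.GP

namespace Pool.Agent.D0H48.Gr

variable {E : ℝ → ℝ} {af : ℕ → ℝ} {φ : ℝ}

lemma natlog_tendsto (n0 : ℕ) : Tendsto (fun n : ℕ => Nat.log 2 (n - n0)) atTop atTop := by
  apply tendsto_atTop.mpr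
  intro b
  filter_upwards [eventually_ge_atTop (2 ^ b + n0)] with j hj
  exact Nat.le_log_of_pow_le (by norm_num) (by omega)

lemma upper_of_blocks {x : ℕ → ℝ} {n0 : ℕ} {ε : ℝ} (hε : 0 < ε) (h : ∀ᶠ j : ℕ in atTop,
      ∀ n ∈ Finset.Ico (2 ^ j) (2 ^ (j + 1)), |x (n + n0)| ≤ ((j:ℝ) + 1) ^ (1/4 + ε) + 2) :
    ∀ᶠ n : ℕ in atTop, |x n| ≤ (Real.log n) ^ (1/4 + 2 * ε) := by
  have h1 : ∀ᶠ j : ℕ in atTop, (∀ n ∈ Finset.Ico (2 ^ j) (2 ^ (j + 1)), |x (n + n0)| ≤ ((j:ℝ) + 1) ^ (1/4 + ε) + 2) ∧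
      3 * (2:ℝ) ^ (1/4 + 2 * ε) ≤ ((j:ℝ) + 1) ^ ε ∧ 1 ≤ ((j:ℝ) + 1) ^ (1/4 + ε) ∧ 3 ≤ j :=
    h.and ((ev_rpow hε _).and ((ev_rpow (by linarith) 1).and (eventually_ge_atTop 3)))
  filter_upwards [(natlog_tendsto n0).eventually h1, eventually_gt_atTop n0] with n hn hn0
  obtain ⟨g1, g2, g3, g4⟩ := hn
  set j := Nat.log 2 (n - n0) with hj
  have hm : n - n0 ≠ 0 := by omega
  have hlo : 2 ^ j ≤ n - n0 := Nat.pow_log_le_self 2 hm
  have hhi : n - n0 < 2 ^ (j + 1) := Nat.lt_pow_succ_log_self (by norm_num) _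
  have h2 := g1 (n - n0) (Finset.mem_Ico.mpr ⟨hlo, hhi⟩)
  rw [Nat.sub_add_cancel hn0.le] at h2
  refine h2.trans ?_
  have hX : (0:ℝ) < (j:ℝ) + 1 := by positivity
  have h3 : (2:ℝ) ^ j ≤ n := by
    have : 2 ^ j ≤ n := by omega
    exact_mod_cast this
  have h4 : ((j:ℝ) + 1) / 2 ≤ Real.log n := by
    have h5 := Real.log_le_log (by positivity) h3
    rw [Real.log_pow] at h5
    have := Real.log_two_gt_d9
    have h6 : (3:ℝ) ≤ j := by exact_mod_cast g4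
    nlinarith
  have h5 : (((j:ℝ) + 1) / 2) ^ (1/4 + 2 * ε) ≤ (Real.log n) ^ (1/4 + 2 * ε) :=
    Real.rpow_le_rpow (by positivity) h4 (by linarith)
  refine le_trans ?_ h5
  rw [Real.div_rpow hX.le (by norm_num), le_div_iff₀ (by positivity)]
  have h6 : ((j:ℝ) + 1) ^ (1/4 + 2 * ε) = ((j:ℝ) + 1) ^ ε * ((j:ℝ) + 1) ^ (1/4 + ε) := by
    rw [← Real.rpow_add hX]; congr 1; ring
  rw [h6]
  have h7 : (0:ℝ) < 2 ^ (1/4 + 2 * ε) := by positivity
  calc (((j:ℝ) + 1) ^ (1/4 + ε) + 2) * 2 ^ (1/4 + 2 * ε) ≤ (3 * ((j:ℝ) + 1) ^ (1/4 + ε)) * 2 ^ (1/4 + 2 * ε) := by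
        apply mul_le_mul_of_nonneg_right _ h7.le
        linarith
    _ = (3 * (2:ℝ) ^ (1/4 + 2 * ε)) * ((j:ℝ) + 1) ^ (1/4 + ε) := by ring
    _ ≤ _ := mul_le_mul_of_nonneg_right g2 (by linarith)

open Classical in
lemma count_of_blocks {x : ℕ → ℝ} {n0 : ℕ} {ε : ℝ} (hε : 0 < ε) (hε1 : ε ≤ 1/8) (h : ∀ᶠ j : ℕ in atTop,
      (2:ℝ) ^ ((1 - ε) * j) ≤ (((Finset.Ico (2 ^ j) (2 ^ (j + 1))).filter (fun n : ℕ =>
        ((j:ℝ) + 1) ^ (1/4 - ε) ≤ x (n + n0))).card : ℝ)) :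
    ∀ᶠ N : ℕ in atTop, (N:ℝ) ^ (1 - 2 * ε) ≤ (((Finset.range N).filter (fun n : ℕ =>
        (Real.log N) ^ (1/4 - ε) ≤ x n)).card : ℝ) := by
  obtain ⟨k, hk⟩ := exists_nat_ge (3 / ε)
  have h1 : ∀ᶠ j : ℕ in atTop, (2:ℝ) ^ ((1 - ε) * j) ≤ (((Finset.Ico (2 ^ j) (2 ^ (j + 1))).filter (fun n : ℕ =>
        ((j:ℝ) + 1) ^ (1/4 - ε) ≤ x (n + n0))).card : ℝ) ∧ k ≤ j ∧ 4 ≤ j :=
    h.and ((eventually_ge_atTop k).and (eventually_ge_atTop 4))
  have h2 : Tendsto (fun n : ℕ => Nat.log 2 (n - n0) - 1) atTop atTop :=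
    (tendsto_sub_atTop_nat 1).comp (natlog_tendsto n0)
  filter_upwards [h2.eventually h1, eventually_ge_atTop (2 * n0 + 2)] with N hN hN0
  obtain ⟨g1, g2, g3⟩ := hN
  set j := Nat.log 2 (N - n0) - 1 with hj
  have hm : N - n0 ≠ 0 := by omega
  have hl : Nat.log 2 (N - n0) = j + 1 := by omega
  have hlo : 2 ^ (j + 1) ≤ N - n0 := by rw [← hl]; exact Nat.pow_log_le_self 2 hm
  have hhi : N - n0 < 2 ^ (j + 2) := by
    have := Nat.lt_pow_succ_log_self (b := 2) (by norm_num) (N - n0)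
    rwa [hl] at this
  have hNle : N ≤ 2 ^ (j + 3) := by
    rw [pow_succ]
    omega
  have hNr : (N:ℝ) ≤ 2 ^ (j + 3) := by exact_mod_cast hNle
  have hN1 : (0:ℝ) < N := by
    have : 0 < N := by omega
    exact_mod_cast this
  have hj4 : (4:ℝ) ≤ j := by exact_mod_cast g3
  have hlog : Real.log N ≤ (j:ℝ) + 1 := by
    have h5 := Real.log_le_log hN1 hNr
    rw [Real.log_pow] at h5
    have := Real.log_two_lt_d9
    push_cast at h5
    nlinarith
  have hlog0 : 0 ≤ Real.log N := Real.log_nonneg (by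
    have : 1 ≤ N := by omega
    exact_mod_cast this)
  have hthr : (Real.log N) ^ (1/4 - ε) ≤ ((j:ℝ) + 1) ^ (1/4 - ε) := Real.rpow_le_rpow hlog0 hlog (by linarith)
  have hcard : ((Finset.Ico (2 ^ j) (2 ^ (j + 1))).filter (fun n : ℕ => ((j:ℝ) + 1) ^ (1/4 - ε) ≤ x (n + n0))).card ≤
      ((Finset.range N).filter (fun n : ℕ => (Real.log N) ^ (1/4 - ε) ≤ x n)).card := by
    apply Finset.card_le_card_of_injOn (fun n => n + n0)
    · intro n hn
      simp only [Finset.coe_filter, Finset.mem_Ico, Finset.mem_range, Set.mem_setOf_eq] at hn ⊢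
      exact ⟨by omega, hthr.trans hn.2⟩
    · intro n _ m _ hnm
      simpa using hnm
  refine le_trans ?_ (g1.trans (by exact_mod_cast hcard))
  calc (N:ℝ) ^ (1 - 2 * ε) ≤ ((2:ℝ) ^ (j + 3)) ^ (1 - 2 * ε) := Real.rpow_le_rpow hN1.le hNr (by linarith)
    _ = (2:ℝ) ^ (((j:ℝ) + 3) * (1 - 2 * ε)) := by
        rw [← Real.rpow_natCast, ← Real.rpow_mul (by norm_num)]; push_cast; rfl
    _ ≤ _ := by
        apply Real.rpow_le_rpow_of_exponent_le (by norm_num)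
        have h6 : 3 ≤ ε * j := by
          rw [div_le_iff₀ hε] at hk
          have : (k:ℝ) ≤ j := by exact_mod_cast g2
          nlinarith
        nlinarith

open Classical in
/-- the growth law along powers -/
theorem growth (hm : Mod E af φ) {a b : ℕ → ℝ} {δ : ℝ} (hδ : 0 < δ) (hgap : ∀ n, a n + δ ≤ a (n + 1)) (hb : ∀ n, 0 < b n)
    (hmono : Monotone b) :
    ∀ᵐ α : ℝ, 1 < α → ∀ ε : ℝ, 0 < ε →
      (∀ᶠ n : ℕ in atTop, |E (b n * α ^ (a n))| ≤ (Real.log n) ^ (1/4 + ε)) ∧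
      ∀ᶠ N : ℕ in atTop, (N:ℝ) ^ (1 - ε) ≤ (((Finset.range N).filter (fun n : ℕ =>
        (Real.log N) ^ (1/4 - ε) ≤ E (b n * α ^ (a n)))).card : ℝ) := by
  have hlow : ∀ n : ℕ, a 0 + δ * n ≤ a n := by
    intro n
    induction n with
    | zero => simp
    | succ n ih =>
      have := hgap n
      push_cast
      linarith
  obtain ⟨n0, hn0⟩ := exists_nat_ge ((1 - a 0) / δ)
  have hone : ∀ n : ℕ, 1 ≤ a (n + n0) := by
    intro n
    have h1 := hlow (n + n0)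
    rw [div_le_iff₀ hδ] at hn0
    push_cast at h1
    have h2 : (0:ℝ) ≤ n := Nat.cast_nonneg n
    nlinarith
  have hSq : Sq (fun n => a (n + n0)) (fun n => b (n + n0)) (min δ 1) :=
    ⟨lt_min hδ one_pos, min_le_right _ _, hone, fun n => by
      have h1 := hgap (n + n0)
      have h2 := min_le_left δ 1
      show a (n + n0) + min δ 1 ≤ a (n + 1 + n0)
      have h3 : n + 1 + n0 = n + n0 + 1 := by ring
      rw [h3]
      linarith, fun n => hb _, fun n m hnm => hmono (by omega)⟩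
  apply ae_exp
  apply ae_pos
  intro c d hc hcd
  have hall : ∀ k : ℕ, ∀ᵐ y ∂(volume.restrict (Icc c d)), ∀ᶠ j : ℕ in atTop,
      (∀ n ∈ Finset.Ico (2 ^ j) (2 ^ (j + 1)), |E (pt (fun n => a (n + n0)) (fun n => b (n + n0)) n y)| ≤
        ((j:ℝ) + 1) ^ (1/4 + 1 / ((k:ℝ) + 8)) + 2) ∧
      (2:ℝ) ^ ((1 - 1 / ((k:ℝ) + 8)) * j) ≤ (((Finset.Ico (2 ^ j) (2 ^ (j + 1))).filter (fun n : ℕ =>
        ((j:ℝ) + 1) ^ (1/4 - 1 / ((k:ℝ) + 8)) ≤ E (pt (fun n => a (n + n0)) (fun n => b (n + n0)) n y))).card : ℝ) := by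
    intro k
    have hk0 : (0:ℝ) ≤ k := Nat.cast_nonneg k
    refine blk_lower hm hSq hc hcd.le (by positivity) ?_
    apply one_div_le_one_div_of_le (by norm_num)
    linarith
  filter_upwards [ae_all_iff.mpr hall] with y hy ε hε
  obtain ⟨k, hk⟩ := exists_nat_ge (2 / ε)
  have hk0 : (0:ℝ) ≤ k := Nat.cast_nonneg k
  set η : ℝ := 1 / ((k:ℝ) + 8) with hη
  have hη0 : 0 < η := by positivity
  have hη1 : η ≤ 1/8 := one_div_le_one_div_of_le (by norm_num) (by linarith)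
  have hη2 : 2 * η ≤ ε := by
    rw [div_le_iff₀ hε] at hk
    rw [hη, mul_one_div, div_le_iff₀ (by positivity)]
    nlinarith
  have hpt : ∀ n : ℕ, pt (fun n => a (n + n0)) (fun n => b (n + n0)) n y = b (n + n0) * (exp y) ^ (a (n + n0)) := by
    intro n
    unfold pt
    rw [← Real.exp_mul, mul_comm y]
  have hyk := hy k
  simp only [hpt] at hyk
  have hU : ∀ᶠ n : ℕ in atTop, |E (b n * (exp y) ^ (a n))| ≤ (Real.log n) ^ (1/4 + 2 * η) :=
    upper_of_blocks (x := fun n => E (b n * (exp y) ^ (a n))) (n0 := n0) hη0 (hyk.mono fun j hj => hj.1)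
  have hL := count_of_blocks (x := fun n => E (b n * (exp y) ^ (a n))) (n0 := n0) hη0 hη1 (hyk.mono fun j hj => hj.2)
  have hl1 : ∀ᶠ n : ℕ in atTop, 1 ≤ Real.log n :=
    (Real.tendsto_log_atTop.comp tendsto_natCast_atTop_atTop).eventually_ge_atTop 1
  constructor
  · filter_upwards [hU, hl1] with n h1 h2
    exact h1.trans (Real.rpow_le_rpow_of_exponent_le h2 (by linarith))
  · filter_upwards [hL, hl1, eventually_ge_atTop 1] with N h1 h2 h3
    have hN : (1:ℝ) ≤ N := by exact_mod_cast h3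
    refine (Real.rpow_le_rpow_of_exponent_le hN (by linarith : 1 - ε ≤ 1 - 2 * η)).trans (h1.trans ?_)
    have : ((Finset.range N).filter (fun n : ℕ => (Real.log N) ^ (1/4 - η) ≤ E (b n * (exp y) ^ (a n)))).card ≤
        ((Finset.range N).filter (fun n : ℕ => (Real.log N) ^ (1/4 - ε) ≤ E (b n * (exp y) ^ (a n)))).card := by
      apply Finset.card_le_card
      intro n hn
      rw [Finset.mem_filter] at hn ⊢
      exact ⟨hn.1, (Real.rpow_le_rpow_of_exponent_le h2 (by linarith)).trans hn.2⟩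
    exact_mod_cast this

end Pool.Agent.D0H48.Gr
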