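import Mathlib
import Pool.Agent.D0H48.Gr.Fin
import Pool.Agent.R373.NFI.Gen
import Pool.Agent.R461.GC.G8
import Pool.Agent.H383.Full3

/-!
The circle and the divisor problem.
-/

set_option autoImplicit false

open MeasureTheory Filter Topology Set Real
open scoped ENNReal
open Pool.Agent.H383.Gen (U Bd)
open Pool.Agent.H383.GW (Wt Sand)
open Pool.Agent.H452R2.Win (Bdw)
open Pool.Agent.Y969.TM
open Pool.Agent.R306.GP

namespace Pool.Agent.D0H48.Gr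

variable {E : ℝ → ℝ} {af : ℕ → ℝ} {φ : ℝ}

lemma U_neg (af : ℕ → ℝ) (φ R : ℝ) (M : ℕ) : U (fun m => -af m) φ R M = -U af φ R M := by
  unfold U
  rw [← Finset.sum_neg_distrib]
  exact Finset.sum_congr rfl fun m _ => by ring

lemma Ctx_neg (h : Ctx E af φ) : Ctx (fun x => -E x) (fun m => -af m) φ := by
  obtain ⟨h1, h2, h3⟩ := h
  refine ⟨?_, h2.neg, ?_⟩
  · obtain ⟨C, hC, h⟩ := h1
    exact ⟨C, hC, fun m hm => by rw [abs_neg]; exact h m hm⟩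
  · intro c d hcd
    obtain ⟨C, hC, ρ, hρ, h⟩ := h3 c d hcd
    refine ⟨C, hC, ρ, hρ, fun A b hA hb hρ' M hM hM' => ?_⟩
    refine le_trans (le_of_eq ?_) (h A b hA hb hρ' M hM hM')
    apply lintegral_congr
    intro y
    rw [U_neg]
    congr 1
    ring

lemma Bdw_neg (h : Bdw af) : Bdw (fun m => -af m) := by
  intro κ hκ
  obtain ⟨C, hC, h⟩ := h κ hκ
  exact ⟨C, hC, fun m hm => by rw [abs_neg]; exact h m hm⟩

open Classical in
/-- both signs -/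
lemma mod_both (hX : Ctx E af φ) (hB : Bdw af) {τ X : ℝ} (hτ : Transcendental ℤ τ)
    (happ : ∀ ε : ℝ, 0 < ε → ∀ᶠ M : ℕ in atTop, ∀ᶠ N : ℕ in atTop,
      ∑ n ∈ Finset.range N, (E (X + n * τ) - U af φ (X + n * τ) M) ^ 2 ≤ ε * N)
    {C K0 : ℝ} (hC : 0 < C) (h1 : ∀ K : ℝ, K0 ≤ K → ∀ᶠ N : ℕ in atTop,
      Real.exp (-(C * K ^ 4 * (Real.log K) ^ 3)) * N ≤ (((Finset.range N).filter (fun n : ℕ => K < E (X + n * τ))).card : ℝ))
    (h2 : ∀ K : ℝ, K0 ≤ K → ∀ᶠ N : ℕ in atTop,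
      Real.exp (-(C * K ^ 4 * (Real.log K) ^ 3)) * N ≤ (((Finset.range N).filter (fun n : ℕ => E (X + n * τ) < -K)).card : ℝ)) :
    Mod E af φ ∧ Mod (fun x => -E x) (fun m => -af m) φ := by
  refine ⟨⟨hX, hB, τ, X, hτ, happ, C, K0, hC, h1⟩, ⟨Ctx_neg hX, Bdw_neg hB, τ, X, hτ, ?_, C, K0, hC, ?_⟩⟩
  · intro ε hε
    filter_upwards [happ ε hε] with M hM
    filter_upwards [hM] with N hN
    refine le_trans (le_of_eq ?_) hN
    apply Finset.sum_congr rfl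
    intro n _
    rw [U_neg]
    ring
  · intro K hK
    filter_upwards [h2 K hK] with N hN
    refine hN.trans (le_of_eq ?_)
    congr 2
    apply Finset.filter_congr
    intro n _
    constructor <;> intro h <;> linarith

open Pool.Agent.H383.Gauss (En)
open Pool.Agent.H383.Circ (ag_Bd ag_zero wg_Wt En_Sand Cx)
open Pool.Agent.R306.Circ (En_meas)

/-- the circle problem -/
theorem circ_mod : Mod En Pool.Agent.H383.Circ.ag (3 * Real.pi / 4) ∧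
    Mod (fun x => -En x) (fun m => -Pool.Agent.H383.Circ.ag m) (3 * Real.pi / 4) := by
  classical
  obtain ⟨τ, hτ, hτt⟩ := exists_tr
  obtain ⟨C0, hC0, hS⟩ := En_Sand
  have hX := Ctx.of ag_Bd ag_zero wg_Wt hC0 hS En_meas
  obtain ⟨C, hC, h⟩ := Pool.Agent.H383.Circ.large3 (a := τ ^ 2) (b := 2 * τ ^ 2)
    (c := τ ^ 2) (by positivity) (fun n => by positivity)
  obtain ⟨K0, hK0, h⟩ := h 1 one_pos
  have e1 : ∀ n : ℕ, Cx (τ ^ 2 * n^2 + (2 * τ ^ 2) * n + τ ^ 2) / (τ ^ 2 * (n:ℝ)^2 + (2 * τ ^ 2) * n + τ ^ 2) ^ (1/4:ℝ) =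
      En (τ + n * τ) := by
    intro n
    have h2 : (0:ℝ) ≤ τ ^ 2 * (n:ℝ)^2 + (2 * τ ^ 2) * n + τ ^ 2 := by positivity
    rw [← Pool.Agent.H383.Circ.En_quad h2]
    congr 1
    rw [Real.sqrt_eq_iff_mul_self_eq h2 (by positivity)]
    ring
  have hpos : ∀ n : ℕ, 0 < (τ ^ 2 * (n:ℝ)^2 + (2 * τ ^ 2) * n + τ ^ 2) ^ (1/4:ℝ) := fun n => by positivity
  refine mod_both hX Pool.Agent.H452R2.Win.ag_Bdw hτt (h2_prog ag_Bd ag_zero wg_Wt hC0 hS hτ τ) hC (K0 := K0) ?_ ?_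
  · intro K hK
    obtain ⟨N₀, hN₀⟩ := h K hK 1 one_pos
    filter_upwards [eventually_ge_atTop N₀] with N hN
    have h3 := ((hN₀ N hN 0).2 (by
      rw [Nat.cast_zero, Real.zero_rpow (by norm_num)]
      exact Nat.cast_nonneg N)).1.1
    rw [zero_add, ← Finset.range_eq_Ico] at h3
    refine h3.trans (le_of_eq ?_)
    congr 2
    apply Finset.filter_congr
    intro n _
    rw [← e1 n, lt_div_iff₀ (hpos n)]
  · intro K hK
    obtain ⟨N₀, hN₀⟩ := h K hK 1 one_pos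
    filter_upwards [eventually_ge_atTop N₀] with N hN
    have h3 := ((hN₀ N hN 0).2 (by
      rw [Nat.cast_zero, Real.zero_rpow (by norm_num)]
      exact Nat.cast_nonneg N)).2.1
    rw [zero_add, ← Finset.range_eq_Ico] at h3
    refine h3.trans (le_of_eq ?_)
    congr 2
    apply Finset.filter_congr
    intro n _
    rw [← e1 n, div_lt_iff₀ (hpos n), neg_mul]

open Pool.Agent.H387R2.Vor (Ed Del Dsum dv)
open Pool.Agent.H383.Div (E2 ad ad_zero wd wd_Wt vor Dx Ed_quad)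
open Pool.Agent.H452R2.Win (SandW E2_SandW ad_Bdw2)
open Pool.Agent.R461.GC (E2_meas)

/-- the divisor problem -/
theorem div_mod : Mod E2 ad (Real.pi / 4) ∧ Mod (fun x => -E2 x) (fun m => -ad m) (Real.pi / 4) := by
  classical
  obtain ⟨α, hα0, hαt⟩ := exists_tr
  obtain ⟨C0, hC0, hS'⟩ := (E2_SandW vor).sand
  have hX : Ctx E2 ad (Real.pi / 4) := Ctx.of ad_Bdw2.Bd ad_zero wd_Wt hC0 hS' E2_meas
  have hP : ∀ n : ℕ, 0 < α ^ 2 / 4 * (n : ℝ) ^ 2 + α ^ 2 / 2 * n + α ^ 2 / 4 := fun n => by positivity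
  obtain ⟨C, hC, h⟩ := Pool.Agent.H383.Div.large3 vor (show 0 < α ^ 2 / 4 by positivity) hP
  obtain ⟨K0, hK0, h⟩ := h 1 one_pos
  have hsq : ∀ n : ℕ, √(α ^ 2 / 4 * (n : ℝ) ^ 2 + α ^ 2 / 2 * n + α ^ 2 / 4) = (α + n * α) / 2 := by
    intro n
    rw [show α ^ 2 / 4 * (n : ℝ) ^ 2 + α ^ 2 / 2 * n + α ^ 2 / 4 = ((α + n * α) / 2) ^ 2 by ring]
    exact Real.sqrt_sq (by positivity)
  have e1 : ∀ n : ℕ, Dx (α ^ 2 / 4 * (n : ℝ) ^ 2 + α ^ 2 / 2 * n + α ^ 2 / 4) / (α ^ 2 / 4 * (n : ℝ) ^ 2 + α ^ 2 / 2 * n + α ^ 2 / 4) ^ (1 / 4 : ℝ) = E2 (α + n * α) := by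
    intro n
    rw [← Ed_quad (hP n).le, hsq]
    rfl
  have hpos : ∀ n : ℕ, 0 < (α ^ 2 / 4 * (n : ℝ) ^ 2 + α ^ 2 / 2 * n + α ^ 2 / 4) ^ (1/4:ℝ) := fun n => by
    have := hP n
    positivity
  refine mod_both hX ad_Bdw2 hαt (h2_prog ad_Bdw2.Bd ad_zero wd_Wt hC0 hS' hα0 α) hC (K0 := K0) ?_ ?_
  · intro K hK
    obtain ⟨N₀, hN₀⟩ := h K hK 1 one_pos
    filter_upwards [eventually_ge_atTop N₀] with N hN
    have h3 := ((hN₀ N hN 0).2 (by
      rw [Nat.cast_zero, Real.zero_rpow (by norm_num)]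
      exact Nat.cast_nonneg N)).1.1
    rw [zero_add, ← Finset.range_eq_Ico] at h3
    refine h3.trans (le_of_eq ?_)
    congr 2
    apply Finset.filter_congr
    intro n _
    rw [← e1 n, lt_div_iff₀ (hpos n)]
  · intro K hK
    obtain ⟨N₀, hN₀⟩ := h K hK 1 one_pos
    filter_upwards [eventually_ge_atTop N₀] with N hN
    have h3 := ((hN₀ N hN 0).2 (by
      rw [Nat.cast_zero, Real.zero_rpow (by norm_num)]
      exact Nat.cast_nonneg N)).2.1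
    rw [zero_add, ← Finset.range_eq_Ico] at h3
    refine h3.trans (le_of_eq ?_)
    congr 2
    apply Finset.filter_congr
    intro n _
    rw [← e1 n, div_lt_iff₀ (hpos n), neg_mul]

end Pool.Agent.D0H48.Gr
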